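import Pool.Agent.H64.QUAD.Full
import Pool.Agent.H70.QUAD.Out
import Pool.Agent.H74.FEK.Lin

/-!
# Row 366: the statement QUAD in sample form

`QH` is the probabilistic picture: a line `(nu, v)` in the context `b`, an abstract time `th` on the
line. `QuadStmt`: the slope `E (th)` of almost every time of the line is, after projection by a
covector `n`, an affine function of the real time `tau (th)`, where `n` and the coefficients are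
functions of `J + 1` independent times of the line.
-/

set_option autoImplicit false

namespace Pool.QT64

open Finset Real
open Pool.Agent.H49.Ent Pool.Agent.H32.Dense Pool.STK Pool.KS6 Pool.SLO
open Pool.BFL (Pb)
open Pool.QC (QD nfb)

/-- The picture. -/
structure QH (c k : ℕ) where
  Ω : Type
  iΩ : Fintype Ω
  B : Type
  Vt : Type
  Tt : Type
  p : Ω → ℝ
  b : Ω → B
  nu : Ω → Fin c → ℤ
  v : Ω → Vt
  th : Ω → Tt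
  tau : Tt → ℤ
  E : Tt → Fin k → Fin c → ℝ
  y : Vt → Fin k → ℤ
  be : Vt → Fin c → ℝ
  g : Tt → Vt → Fin c → ℤ
  a0 : Tt → Fin c → ℝ
  b0 : Vt → Fin c → ℝ

attribute [instance] QH.iΩ

variable {c k : ℕ}

/-- The line, with the context. -/
def QH.line (H : QH c k) (ω : H.Ω) : (Fin c → ℤ) × (H.Vt × H.B) := (H.nu ω, (H.v ω, H.b ω))

/-- The height at the time. -/
def QH.hgt (H : QH c k) (ω : H.Ω) : Fin c → ℤ := H.nu ω + H.g (H.th ω) (H.v ω)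

/-- The hypotheses of the consumer. `X` digits, `B` blocks, `d` is the bound of the informations, in
nats. -/
structure QH.Ok0 (H : QH c k) (n₀ : Fin c) (X B : ℕ) (C c0 d : ℝ) : Prop where
  law : IsLaw H.p
  tau_r : ∀ t, 0 ≤ H.tau t ∧ H.tau t < 2 ^ X
  y_r : ∀ v j, 0 ≤ H.y v j ∧ H.y v j < 2 ^ X
  E_b : ∀ t u i, |H.E t u i| ≤ C
  be_b : ∀ v i, |H.be v i| ≤ C
  hgt_b : ∀ ω i, |(H.hgt ω i : ℝ)| ≤ C * 2 ^ X
  g_eq : ∀ t v i, |(H.g t v i : ℝ) -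
    (H.tau t * H.be v i - ∑ u, H.E t u i * H.y v u + H.a0 t i + H.b0 v i)| ≤ C
  h0 : CH H.p H.th H.b - CH H.p H.th H.line ≤ d
  h2 : CH H.p H.hgt (fun ω => (H.th ω, H.b ω)) -
    CH H.p H.hgt (fun ω => (H.v ω, (H.th ω, H.b ω))) ≤ d
  y_f : k * X * Real.log 2 - d ≤ CH H.p (fun ω => H.y (H.v ω)) H.b
  t_f : X * Real.log 2 - d ≤ CH H.p (fun ω => H.tau (H.th ω)) H.b
  nf : nfb H.p H.nu (fun ω => (H.v ω, (H.th ω, H.b ω))) n₀ X B ≤ (1 - c0) * X * Real.log 2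

/-- The hypotheses when also `nu` is almost independent of `v`. -/
structure QH.Ok (H : QH c k) (n₀ : Fin c) (X B : ℕ) (C c0 d : ℝ) : Prop where
  law : IsLaw H.p
  tau_r : ∀ t, 0 ≤ H.tau t ∧ H.tau t < 2 ^ X
  y_r : ∀ v j, 0 ≤ H.y v j ∧ H.y v j < 2 ^ X
  E_b : ∀ t u i, |H.E t u i| ≤ C
  be_b : ∀ v i, |H.be v i| ≤ C
  nu_b : ∀ ω i, |(H.nu ω i : ℝ)| ≤ C * 2 ^ X
  g_eq : ∀ t v i, |(H.g t v i : ℝ) -
    (H.tau t * H.be v i - ∑ u, H.E t u i * H.y v u + H.a0 t i + H.b0 v i)| ≤ C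
  h0 : CH H.p H.th H.b - CH H.p H.th H.line ≤ d
  h1 : CH H.p H.nu H.b - CH H.p H.nu (fun ω => (H.v ω, (H.th ω, H.b ω))) ≤ d
  h2 : CH H.p H.hgt (fun ω => (H.th ω, H.b ω)) -
    CH H.p H.hgt (fun ω => (H.v ω, (H.th ω, H.b ω))) ≤ d
  y_f : k * X * Real.log 2 - d ≤ CH H.p (fun ω => H.y (H.v ω)) H.b
  t_f : X * Real.log 2 - d ≤ CH H.p (fun ω => H.tau (H.th ω)) H.b
  nf : nfb H.p H.nu H.b n₀ X B ≤ (1 - c0) * X * Real.log 2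

/-- Two times of a line are usually far apart. -/
def QH.TM (H : QH c k) (X : ℕ) (s η : ℝ) : Prop :=
  Pb (tup H.p H.line 1) (fun w => |((H.tau (H.th (w 0)) - H.tau (H.th (w 1)) : ℤ) : ℝ)| ≤
    s * 2 ^ X) ≤ η

/-- The conclusion: `n`, `e0`, `e1` are functions of `J + 1` times of the line. -/
def QH.Con (H : QH c k) (n₀ : Fin c) (X B J : ℕ) (x0 a : ℝ) : Prop :=
  ∃ f : (Fin (J + 1) → H.Tt) → (Fin c → ℝ) × ((Fin k → ℝ) × (Fin k → ℝ)),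
    (∀ t, (f t).1 n₀ = 1 ∧ ∀ i, |(f t).1 i| ≤ (2 : ℝ) ^ ((X : ℝ) / B)) ∧
    a ≤ Pb (tup H.p H.line (J + 1)) (fun v => ∀ u,
      |∑ i, (f fun j => H.th (v j.succ)).1 i * H.E (H.th (v 0)) u i -
        (f fun j => H.th (v j.succ)).2.1 u -
        (f fun j => H.th (v j.succ)).2.2 u * H.tau (H.th (v 0))| ≤ (2 : ℝ) ^ (-(x0 * X)))

/-- **QUAD.** `x0` and `J` depend only on `c0`; `io` does not depend on the bound `C`. -/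
def QuadStmt (c k : ℕ) : Prop :=
  ∀ (n₀ : Fin c) (c0 : ℝ), 0 < c0 → ∃ (x0 : ℝ) (J : ℕ), 0 < x0 ∧ ∀ (s : ℝ) (B : ℕ), 0 < s →
    0 < B → ∃ io : ℝ, 0 < io ∧ ∀ C : ℝ, 1 ≤ C → ∃ X0 : ℕ, ∀ (H : QH c k) (X : ℕ), X0 ≤ X →
    H.Ok0 n₀ X B C c0 (io * X) → H.TM X s (c0 / 64) → H.Con n₀ X B J x0 (c0 / 16)

/-- QUAD, before the scaling. -/
def Quad0Stmt (c k : ℕ) : Prop :=
  ∀ (n₀ : Fin c) (c0 : ℝ), 0 < c0 → ∃ (x0 : ℝ) (J : ℕ), 0 < x0 ∧ ∀ (C s : ℝ) (B : ℕ), 1 ≤ C →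
    0 < s → 0 < B → ∃ (io : ℝ) (X0 : ℕ), 0 < io ∧ ∀ (H : QH c k) (X : ℕ), X0 ≤ X →
    H.Ok0 n₀ X B C c0 (io * X) → H.TM X s (c0 / 32) → H.Con n₀ X B J x0 (c0 / 8)

/-- QUAD, when `nu` is almost independent of `v`. -/
def QuadRStmt (c k : ℕ) : Prop :=
  ∀ (n₀ : Fin c) (c0 : ℝ), 0 < c0 → ∃ (x0 : ℝ) (J : ℕ), 0 < x0 ∧ ∀ (C s : ℝ) (B : ℕ), 1 ≤ C →
    0 < s → 0 < B → ∃ (io : ℝ) (X0 : ℕ), 0 < io ∧ ∀ (H : QH c k) (X : ℕ), X0 ≤ X →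
    H.Ok n₀ X B C c0 (io * X) → H.TM X s (c0 / 16) → H.Con n₀ X B J x0 (c0 / 4)

/-- The times `t` lie in a graph to which COMB applies. -/
def QH.Gd (H : QH c k) (n₀ : Fin c) (X B : ℕ) (C' c0 ka ε0 : ℝ) {N : ℕ} (t : Fin N → H.Tt) :
    Prop :=
  ∃ (D : QD c k) (ΩR : Type) (_ : Fintype ΩR) (pR : ΩR → ℝ) (R : ΩR → Fin c → ℤ)
    (s : Fin N → D.TT), D.Ok X C' ((2 : ℝ) ^ (-(ka * X))) ∧ IsLaw pR ∧
    (∀ ω i, |(R ω i : ℝ)| ≤ C' * 2 ^ X) ∧ Pool.QC.Absb pR R D.A (ε0 * X) ∧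
    nfb pR R (fun _ => ()) n₀ X B ≤ (1 - c0) * X * Real.log 2 ∧
    (∀ j, D.tau (s j) = H.tau (t j) ∧ D.E (s j) = H.E (t j)) ∧
    (2 : ℝ) ^ (-(ka * X)) ≤ D.cnV s

/-- The law of a line with a world. -/
def QH.wl (H : QH c k) {Ee : Type} (r : (Fin c → ℤ) × (H.Vt × H.B) → Ee → ℝ) (w : Ee × H.Ω) : ℝ :=
  H.p w.2 * r (H.line w.2) w.1

/-- The world and the line. -/
def QH.KK (H : QH c k) {Ee : Type} (w : Ee × H.Ω) : Ee × ((Fin c → ℤ) × (H.Vt × H.B)) :=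
  (w.1, H.line w.2)

/-- A2 + A3 + A5 + A6: worlds `e` (a kernel `r` from the lines), most of which do not see a graph
only if they are full. -/
def StarStmt (c k : ℕ) : Prop :=
  ∀ (n₀ : Fin c) (C c0 : ℝ), 0 < c0 → 1 ≤ C → ∃ C' : ℝ, 1 ≤ C' ∧ ∀ (N B : ℕ) (ka ε0 ε : ℝ),
    0 < B → 0 < ka → 0 < ε0 → 0 < ε → ∃ (io : ℝ) (X0 : ℕ), 0 < io ∧
    ∀ (H : QH c k) (X : ℕ), X0 ≤ X → H.Ok n₀ X B C c0 (io * X) →
    ∃ (Ee : Type) (_ : Fintype Ee) (r : (Fin c → ℤ) × (H.Vt × H.B) → Ee → ℝ) (NF : Ee → Prop),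
      (∀ l e, 0 ≤ r l e) ∧ (∀ l, ∑ e, r l e = 1) ∧
      c0 / 2 - ε ≤ Pb (H.wl r) (fun w => NF w.1) ∧
      Pb (tup (H.wl r) H.KK N) (fun v => NF (v 0).1 ∧
        ¬ H.Gd n₀ X B C' (c0 / 4) ka ε0 (fun j => H.th (v j).2)) ≤ ε

end Pool.QT64
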