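import Pool.Agent.H64.POT.Body

/-!
# Row 366: hypotheses at the samples only

`QH.res`: the types of the times and of the labels are replaced by the ranges. `quad_s`, `body_s`:
`QuadStmt` and `BodyStmt` when the bounds hold at the values of `th` and `v` only.
-/

set_option autoImplicit false

namespace Pool.QT64

open Finset Real Matrix
open Pool.Agent.H49.Ent Pool.Agent.H32.Dense Pool.STK Pool.KS6 Pool.SLO
open Pool.BFL (Pb)
open Pool.QC (QD nfb)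
open Pool.FAD (DF)
open Pool.POT (Tx xv DF_xv)

variable {c k : ℕ}

/-- The types are the ranges. -/
noncomputable def QH.res (H : QH c k) : QH c k where
  Ω := H.Ω
  iΩ := H.iΩ
  B := H.B
  Vt := Set.range H.v
  Tt := Set.range H.th
  p := H.p
  b := H.b
  nu := H.nu
  v := fun ω => ⟨H.v ω, ω, rfl⟩
  th := fun ω => ⟨H.th ω, ω, rfl⟩
  tau := fun t => H.tau t.1
  E := fun t => H.E t.1
  y := fun v => H.y v.1
  be := fun v => H.be v.1
  g := fun t v => H.g t.1 v.1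
  a0 := fun t => H.a0 t.1
  b0 := fun v => H.b0 v.1

/-- The hypotheses without nonfullness, at the samples. -/
structure QH.OkNS (H : QH c k) (X : ℕ) (C d : ℝ) : Prop where
  law : IsLaw H.p
  tau_r : ∀ ω, 0 ≤ H.tau (H.th ω) ∧ H.tau (H.th ω) < 2 ^ X
  y_r : ∀ ω j, 0 ≤ H.y (H.v ω) j ∧ H.y (H.v ω) j < 2 ^ X
  E_b : ∀ ω u i, |H.E (H.th ω) u i| ≤ C
  be_b : ∀ ω i, |H.be (H.v ω) i| ≤ C
  hgt_b : ∀ ω i, |(H.hgt ω i : ℝ)| ≤ C * 2 ^ X
  g_eq : ∀ ω ω' i, |(H.g (H.th ω) (H.v ω') i : ℝ) -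
    (H.tau (H.th ω) * H.be (H.v ω') i - ∑ u, H.E (H.th ω) u i * H.y (H.v ω') u +
      H.a0 (H.th ω) i + H.b0 (H.v ω') i)| ≤ C
  h0 : CH H.p H.th H.b - CH H.p H.th H.line ≤ d
  h2 : CH H.p H.hgt (fun ω => (H.th ω, H.b ω)) -
    CH H.p H.hgt (fun ω => (H.v ω, (H.th ω, H.b ω))) ≤ d
  y_f : k * X * Real.log 2 - d ≤ CH H.p (fun ω => H.y (H.v ω)) H.b
  t_f : X * Real.log 2 - d ≤ CH H.p (fun ω => H.tau (H.th ω)) H.b

/-- The hypotheses of the consumer, at the samples. -/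
structure QH.Ok0S (H : QH c k) (n₀ : Fin c) (X B : ℕ) (C c0 d : ℝ) : Prop extends
    H.OkNS X C d where
  nf : nfb H.p H.nu (fun ω => (H.v ω, (H.th ω, H.b ω))) n₀ X B ≤ (1 - c0) * X * Real.log 2

theorem res_th (H : QH c k) (ω ω' : H.Ω) :
    H.res.th ω = H.res.th ω' ↔ H.th ω = H.th ω' := by
  constructor
  · intro h
    exact Subtype.ext_iff.1 h
  · intro h
    exact Subtype.ext h

theorem res_v (H : QH c k) (ω ω' : H.Ω) : H.res.v ω = H.res.v ω' ↔ H.v ω = H.v ω' := by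
  constructor
  · intro h
    exact Subtype.ext_iff.1 h
  · intro h
    exact Subtype.ext h

theorem res_line (H : QH c k) (ω ω' : H.Ω) :
    H.res.line ω = H.res.line ω' ↔ H.line ω = H.line ω' := by
  have e := res_v H ω ω'
  constructor
  · intro h
    have h1 := Prod.ext_iff.1 h
    have h2 := Prod.ext_iff.1 h1.2
    exact Prod.ext h1.1 (Prod.ext (e.1 h2.1) h2.2)
  · intro h
    have h1 := Prod.ext_iff.1 h
    have h2 := Prod.ext_iff.1 h1.2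
    exact Prod.ext h1.1 (Prod.ext (e.2 h2.1) h2.2)

theorem res_tup (H : QH c k) (N : ℕ) : tup H.res.p H.res.line N = tup H.p H.line N :=
  tup_ker (p := H.p) H.res.line H.line (res_line H) N

/-- Entropies of equivalent variables. -/
theorem CH_iff {Ω S S' T T' : Type} [Fintype Ω] {p : Ω → ℝ} (hp : ∀ ω, 0 ≤ p ω) {f : Ω → S}
    {f' : Ω → S'} {g : Ω → T} {g' : Ω → T'} (h1 : ∀ ω ω', f ω = f ω' ↔ f' ω = f' ω')
    (h2 : ∀ ω ω', g ω = g ω' ↔ g' ω = g' ω') : CH p f g = CH p f' g' :=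
  CH_congr hp (fun _ _ _ _ h => (h1 _ _).1 (Prod.ext_iff.1 h).1)
    (fun _ _ _ _ h => (h1 _ _).2 (Prod.ext_iff.1 h).1) (fun _ _ _ _ h => (h2 _ _).1 h)
    (fun _ _ _ _ h => (h2 _ _).2 h)

theorem pair_iff {Ω S S' T T' : Type} {f : Ω → S} {f' : Ω → S'} {g : Ω → T} {g' : Ω → T'}
    (h1 : ∀ ω ω', f ω = f ω' ↔ f' ω = f' ω') (h2 : ∀ ω ω', g ω = g ω' ↔ g' ω = g' ω')
    (ω ω' : Ω) : (f ω, g ω) = (f ω', g ω') ↔ (f' ω, g' ω) = (f' ω', g' ω') := by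
  rw [Prod.mk.injEq, Prod.mk.injEq, h1, h2]

/-- The restricted picture. -/
theorem res_okN {H : QH c k} {X : ℕ} {C d : ℝ} (h : H.OkNS X C d) : H.res.OkN X C d := by
  have hp := h.law.nonneg
  have e0 : ∀ ω ω' : H.Ω, H.b ω = H.b ω' ↔ H.b ω = H.b ω' := fun _ _ => Iff.rfl
  refine
    { law := h.law
      tau_r := ?_
      y_r := ?_
      E_b := ?_
      be_b := ?_
      hgt_b := h.hgt_b
      g_eq := ?_
      h0 := ?_
      h2 := ?_
      y_f := h.y_f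
      t_f := h.t_f }
  · rintro ⟨-, ω, rfl⟩
    exact h.tau_r ω
  · rintro ⟨-, ω, rfl⟩ j
    exact h.y_r ω j
  · rintro ⟨-, ω, rfl⟩ u i
    exact h.E_b ω u i
  · rintro ⟨-, ω, rfl⟩ i
    exact h.be_b ω i
  · rintro ⟨-, ω, rfl⟩ ⟨-, ω', rfl⟩ i
    exact h.g_eq ω ω' i
  · have e1 : CH H.p H.res.th H.b = CH H.p H.th H.b := CH_iff hp (res_th H) e0
    have e2 : CH H.p H.res.th H.res.line = CH H.p H.th H.line := CH_iff hp (res_th H) (res_line H)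
    have e3 : CH H.res.p H.res.th H.res.b = CH H.p H.res.th H.b := rfl
    have e4 : CH H.res.p H.res.th H.res.line = CH H.p H.res.th H.res.line := rfl
    rw [e3, e4, e1, e2]
    exact h.h0
  · have e5 : ∀ ω ω' : H.Ω, H.hgt ω = H.hgt ω' ↔ H.hgt ω = H.hgt ω' := fun _ _ => Iff.rfl
    have e1 : CH H.p H.hgt (fun ω => (H.res.th ω, H.b ω)) =
        CH H.p H.hgt (fun ω => (H.th ω, H.b ω)) := CH_iff hp e5 (pair_iff (res_th H) e0)
    have e2 : CH H.p H.hgt (fun ω => (H.res.v ω, (H.res.th ω, H.b ω))) =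
        CH H.p H.hgt (fun ω => (H.v ω, (H.th ω, H.b ω))) :=
      CH_iff hp e5 (pair_iff (res_v H) (pair_iff (res_th H) e0))
    have e3 : CH H.res.p H.res.hgt (fun ω => (H.res.th ω, H.res.b ω)) =
      CH H.p H.hgt (fun ω => (H.res.th ω, H.b ω)) := rfl
    have e4 : CH H.res.p H.res.hgt (fun ω => (H.res.v ω, (H.res.th ω, H.res.b ω))) =
      CH H.p H.hgt (fun ω => (H.res.v ω, (H.res.th ω, H.b ω))) := rfl
    rw [e3, e4, e1, e2]
    exact h.h2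

theorem res_ok0 {H : QH c k} {n₀ : Fin c} {X B : ℕ} {C c0 d : ℝ} (h : H.Ok0S n₀ X B C c0 d) :
    H.res.Ok0 n₀ X B C c0 d := by
  have h1 := res_okN h.toOkNS
  have hp := h.law.nonneg
  refine
    { law := h1.law
      tau_r := h1.tau_r
      y_r := h1.y_r
      E_b := h1.E_b
      be_b := h1.be_b
      hgt_b := h1.hgt_b
      g_eq := h1.g_eq
      h0 := h1.h0
      h2 := h1.h2
      y_f := h1.y_f
      t_f := h1.t_f
      nf := ?_ }
  have e0 : ∀ ω ω' : H.Ω, H.b ω = H.b ω' ↔ H.b ω = H.b ω' := fun _ _ => Iff.rfl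
  have e1 : nfb H.p H.nu (fun ω => (H.res.v ω, (H.res.th ω, H.b ω))) n₀ X B =
      nfb H.p H.nu (fun ω => (H.v ω, (H.th ω, H.b ω))) n₀ X B := by
    unfold nfb
    refine Finset.sum_congr rfl fun j _ => ?_
    exact CH_iff hp (fun _ _ => Iff.rfl) (pair_iff (fun _ _ => Iff.rfl)
      (pair_iff (fun _ _ => Iff.rfl) (pair_iff (res_v H) (pair_iff (res_th H) e0))))
  have e2 : nfb H.res.p H.res.nu (fun ω => (H.res.v ω, (H.res.th ω, H.res.b ω))) n₀ X B =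
    nfb H.p H.nu (fun ω => (H.res.v ω, (H.res.th ω, H.b ω))) n₀ X B := rfl
  rw [e2, e1]
  exact h.nf

/-- **QUAD, hypotheses at the samples.** -/
theorem quad_s (c k : ℕ) : ∀ (n₀ : Fin c) (c0 : ℝ), 0 < c0 → ∃ (x0 : ℝ) (J : ℕ), 0 < x0 ∧
    ∀ (s : ℝ) (B : ℕ), 0 < s → 0 < B → ∃ io : ℝ, 0 < io ∧ ∀ C : ℝ, 1 ≤ C → ∃ X0 : ℕ,
    ∀ (H : QH c k) (X : ℕ), X0 ≤ X → H.Ok0S n₀ X B C c0 (io * X) → H.TM X s (c0 / 64) →
      H.Con n₀ X B J x0 (c0 / 16) := by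
  classical
  intro n₀ c0 hc0
  obtain ⟨x0, J, hx0, h⟩ := quad c k n₀ c0 hc0
  refine ⟨x0, J, hx0, fun s B hs hB => ?_⟩
  obtain ⟨io, hio, h⟩ := h s B hs hB
  refine ⟨io, hio, fun C hC => ?_⟩
  obtain ⟨X0, h⟩ := h C hC
  refine ⟨X0, fun H X hX ok hT => ?_⟩
  have hT' : H.res.TM X s (c0 / 64) := by
    unfold QH.TM
    rw [res_tup]
    exact hT
  obtain ⟨f, hf, hP⟩ := h H.res X hX (res_ok0 ok) hT'
  rw [res_tup] at hP
  obtain ⟨F, hF⟩ : ∃ F : (Fin (J + 1) → H.Tt) → (Fin c → ℝ) × ((Fin k → ℝ) × (Fin k → ℝ)),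
      F = fun t => if h : ∀ j, t j ∈ Set.range H.th then f (fun j => ⟨t j, h j⟩) else
        (Pi.single n₀ 1, (0, 0)) := ⟨_, rfl⟩
  refine ⟨F, fun t => ?_, ?_⟩
  · rw [hF]
    by_cases hh : ∀ j, t j ∈ Set.range H.th
    · simp only
      rw [dif_pos hh]
      exact hf _
    · simp only
      rw [dif_neg hh]
      refine ⟨Pi.single_eq_same _ _, fun i => ?_⟩
      have h1 : (1 : ℝ) ≤ (2 : ℝ) ^ ((X : ℝ) / B) := Real.one_le_rpow (by norm_num) (by positivity)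
      show |(Pi.single n₀ (1 : ℝ) : Fin c → ℝ) i| ≤ _
      rw [Pi.single_apply]
      split_ifs
      · rw [abs_one]
        exact h1
      · rw [abs_zero]
        linarith
  · refine hP.trans (Pb_mono (tup_nonneg ok.law.nonneg _ _) fun v _ hv u => ?_)
    have e1 : F (fun j => H.th (v j.succ)) = f (fun j => H.res.th (v j.succ)) := by
      rw [hF]
      simp only
      rw [dif_pos fun j => ⟨v j.succ, rfl⟩]
      rfl
    have h1 := hv u
    rw [e1]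
    exact h1

/-- **BODY, hypotheses at the samples.** -/
theorem body_s (c k : ℕ) : ∀ η : ℝ, 0 < η → ∃ io : ℝ, 0 < io ∧ ∀ C : ℝ, 1 ≤ C →
    ∃ (K1 : ℝ) (X0 : ℕ), ∀ (H : QH c k) (X : ℕ), X0 ≤ X → H.OkNS X C (io * X) →
    ∃ A0 : H.Tt → H.Tt → H.Tt → Matrix (Fin c) (Fin c) ℝ,
      (∀ t0 t1 t2, (A0 t0 t1 t2).det ≠ 0 ∧ (∀ i j, |A0 t0 t1 t2 i j| ≤ K1) ∧
        ∀ i j, |(A0 t0 t1 t2)⁻¹ i j| ≤ 2 ^ X) ∧
      (∀ (ω0 ω1 ω2 : H.Ω) (u : Fin k) (b : Fin c), |((A0 (H.th ω0) (H.th ω1) (H.th ω2))⁻¹ *ᵥ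
        d3 H.tau H.E u (H.th ω0) (H.th ω1) (H.th ω2)) b| ≤ K1) ∧
      DF (tup H.p H.line 3) (fun _ => Tx c X)
        (fun w => A0 (H.th (w 1)) (H.th (w 2)) (H.th (w 3))) (fun w => xv X (H.hgt (w 0)))
        (fun w => (H.b (w 0), (H.th (w 0), (H.th (w 1), (H.th (w 2), H.th (w 3)))))) ≤ η * X := by
  classical
  intro η hη
  obtain ⟨io, hio, h⟩ := body_stmt c k η hη
  refine ⟨io, hio, fun C hC => ?_⟩
  obtain ⟨K1, X0, h⟩ := h C hC
  refine ⟨max K1 1, X0, fun H X hX ok => ?_⟩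
  obtain ⟨A, hA, hD⟩ := h H.res X hX (res_okN ok)
  rw [res_tup] at hD
  obtain ⟨A0, hA0⟩ : ∃ A0 : H.Tt → H.Tt → H.Tt → Matrix (Fin c) (Fin c) ℝ,
      A0 = fun t0 t1 t2 => if h : t0 ∈ Set.range H.th ∧ t1 ∈ Set.range H.th ∧
        t2 ∈ Set.range H.th then A ⟨t0, h.1⟩ ⟨t1, h.2.1⟩ ⟨t2, h.2.2⟩ else 1 := ⟨_, rfl⟩
  have e1 : ∀ ω0 ω1 ω2 : H.Ω, A0 (H.th ω0) (H.th ω1) (H.th ω2) =
      A (H.res.th ω0) (H.res.th ω1) (H.res.th ω2) := by
    intro ω0 ω1 ω2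
    rw [hA0]
    simp only
    rw [dif_pos ⟨⟨ω0, rfl⟩, ⟨ω1, rfl⟩, ⟨ω2, rfl⟩⟩]
    rfl
  refine ⟨A0, fun t0 t1 t2 => ?_, fun ω0 ω1 ω2 u b => ?_, ?_⟩
  · by_cases hh : t0 ∈ Set.range H.th ∧ t1 ∈ Set.range H.th ∧ t2 ∈ Set.range H.th
    · obtain ⟨⟨ω0, rfl⟩, ⟨ω1, rfl⟩, ⟨ω2, rfl⟩⟩ := hh
      rw [e1]
      obtain ⟨a1, a2, a3, -⟩ := hA (H.res.th ω0) (H.res.th ω1) (H.res.th ω2)
      exact ⟨a1, fun i j => (a2 i j).trans (le_max_left _ _), a3⟩
    · have e2 : A0 t0 t1 t2 = 1 := by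
        rw [hA0]
        simp only
        rw [dif_neg hh]
      rw [e2]
      refine ⟨by simp, fun i j => ?_, fun i j => ?_⟩
      · rw [Matrix.one_apply]
        split_ifs
        · rw [abs_one]
          exact le_max_right _ _
        · rw [abs_zero]
          exact zero_le_one.trans (le_max_right _ _)
      · have h1 : (1 : ℝ) ≤ 2 ^ X := one_le_pow₀ (by norm_num)
        rw [inv_one, Matrix.one_apply]
        split_ifs
        · rw [abs_one]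
          exact h1
        · rw [abs_zero]
          linarith
  · rw [e1]
    exact ((hA (H.res.th ω0) (H.res.th ω1) (H.res.th ω2)).2.2.2 u b).trans (le_max_left _ _)
  · have hp := tup_nonneg ok.law.nonneg H.line 3
    obtain ⟨T, hT⟩ : ∃ T : H.Ω → Set.range H.th, T = fun ω => ⟨H.th ω, ω, rfl⟩ := ⟨_, rfl⟩
    obtain ⟨A', hA'⟩ : ∃ A' : Set.range H.th → Set.range H.th → Set.range H.th →
      Matrix (Fin c) (Fin c) ℝ, A' = A := ⟨A, rfl⟩
    have hD' : DF (tup H.p H.line 3) (fun _ => Tx c X)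
        (fun w => A' (T (w 1)) (T (w 2)) (T (w 3))) (fun w => xv X (H.hgt (w 0)))
        (fun w => (H.b (w 0), (T (w 0), (T (w 1), (T (w 2), T (w 3)))))) ≤ η * X := by
      rw [hT, hA']
      exact hD
    refine le_trans (le_of_eq ?_) hD'
    have e3 : (fun w : Fin (3 + 1) → H.Ω => A0 (H.th (w 1)) (H.th (w 2)) (H.th (w 3))) =
        fun w => A' (T (w 1)) (T (w 2)) (T (w 3)) := by
      rw [hT, hA']
      exact funext fun w => e1 _ _ _
    rw [e3, DF_xv, DF_xv]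
    have e4 : ∀ i : Fin (3 + 1), ∀ w w' : Fin (3 + 1) → H.Ω,
        H.th (w i) = H.th (w' i) ↔ T (w i) = T (w' i) := fun i w w' => by
      rw [hT]
      exact (res_th H _ _).symm
    congr 1
    exact CH_iff hp (fun _ _ => Iff.rfl) (pair_iff (fun _ _ => Iff.rfl)
      (pair_iff (fun _ _ => Iff.rfl) (pair_iff (e4 0) (pair_iff (e4 1) (pair_iff (e4 2) (e4 3))))))

end Pool.QT64
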