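import Pool.Agent.H64.QUAD.Two

/-!
# QUAD: the constants do not depend on the bound of the heights

The heights are divided by `2 ^ r`, the lost digits are added to the label.
-/

set_option autoImplicit false

namespace Pool.QT64

open Finset Real
open Pool.Agent.H49.Ent Pool.Agent.H32.Dense Pool.STK Pool.KS6 Pool.SLO
open Pool.BFL (Pb)
open Pool.QC (QD nfb)

variable {c k : ℕ}

/-- The heights are divided by `2 ^ r`. -/
noncomputable def QH.scl (H : QH c k) (r : ℕ) : QH c k where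
  Ω := H.Ω
  iΩ := H.iΩ
  B := H.B
  Vt := H.Vt × (Fin c → ℤ)
  Tt := H.Tt
  p := H.p
  b := H.b
  nu := fun ω i => H.nu ω i / 2 ^ r
  v := fun ω => (H.v ω, fun i => H.nu ω i % 2 ^ r)
  th := H.th
  tau := H.tau
  E := fun t u i => H.E t u i / 2 ^ r
  y := fun v => H.y v.1
  be := fun v i => H.be v.1 i / 2 ^ r
  g := fun t v i => H.g t v.1 i / 2 ^ r
  a0 := fun t i => H.a0 t i / 2 ^ r
  b0 := fun v i => H.b0 v.1 i / 2 ^ r

theorem div_add_bd (a b : ℤ) (r : ℕ) :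
    0 ≤ (a + b) / 2 ^ r - (a / 2 ^ r + b / 2 ^ r) ∧
      (a + b) / 2 ^ r - (a / 2 ^ r + b / 2 ^ r) ≤ 1 := by
  have hm : (0 : ℤ) < 2 ^ r := by positivity
  obtain ⟨m, hm'⟩ : ∃ m : ℤ, m = 2 ^ r := ⟨_, rfl⟩
  rw [← hm'] at hm ⊢
  have h1 := Int.mul_ediv_add_emod a m
  have h2 := Int.mul_ediv_add_emod b m
  have h3 := Int.mul_ediv_add_emod (a + b) m
  have r1 := Int.emod_nonneg a hm.ne'
  have r1' := Int.emod_lt_of_pos a hm
  have r2 := Int.emod_nonneg b hm.ne'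
  have r2' := Int.emod_lt_of_pos b hm
  have r3 := Int.emod_nonneg (a + b) hm.ne'
  have r3' := Int.emod_lt_of_pos (a + b) hm
  obtain ⟨A, hA⟩ : ∃ A, A = a / m := ⟨_, rfl⟩
  obtain ⟨Bq, hB⟩ : ∃ Bq, Bq = b / m := ⟨_, rfl⟩
  obtain ⟨Cq, hC⟩ : ∃ Cq, Cq = (a + b) / m := ⟨_, rfl⟩
  rw [← hA, ← hB, ← hC]
  rw [← hA] at h1
  rw [← hB] at h2
  rw [← hC] at h3
  constructor
  · have h5 : 0 < m * (Cq - (A + Bq) + 1) := by
      have e : m * (Cq - (A + Bq) + 1) = m * Cq - m * A - m * Bq + m := by ring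
      rw [e]
      linarith
    have h6 := (mul_pos_iff_of_pos_left hm).1 h5
    linarith
  · have h5 : 0 < m * (2 - (Cq - (A + Bq))) := by
      have e : m * (2 - (Cq - (A + Bq))) = 2 * m - m * Cq + m * A + m * Bq := by ring
      rw [e]
      linarith
    have h6 := (mul_pos_iff_of_pos_left hm).1 h5
    linarith

theorem mod_bd (a b : ℤ) (r : ℕ) : |((a % 2 ^ r - b % 2 ^ r : ℤ) : ℝ)| ≤ 2 ^ r := by
  have hm : (0 : ℤ) < 2 ^ r := by positivity
  have r1 := Int.emod_nonneg a hm.ne'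
  have r1' := Int.emod_lt_of_pos a hm
  have r2 := Int.emod_nonneg b hm.ne'
  have r2' := Int.emod_lt_of_pos b hm
  have h : |a % 2 ^ r - b % 2 ^ r| ≤ 2 ^ r := by
    rw [abs_le]
    constructor <;> linarith
  exact_mod_cast h

theorem same_bd {a b : ℤ} {r : ℕ} (h : a / 2 ^ r = b / 2 ^ r) : |((a - b : ℤ) : ℝ)| ≤ 2 ^ r := by
  have h1 := Int.mul_ediv_add_emod a (2 ^ r)
  have h2 := Int.mul_ediv_add_emod b (2 ^ r)
  rw [h] at h1
  have e : a - b = a % 2 ^ r - b % 2 ^ r := by linarith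
  rw [e]
  exact mod_bd a b r

theorem div_real (a : ℤ) (r : ℕ) : |((a / 2 ^ r : ℤ) : ℝ) - (a : ℝ) / 2 ^ r| ≤ 1 := by
  have hm : (0 : ℤ) < 2 ^ r := by positivity
  have h1 := Int.mul_ediv_add_emod a (2 ^ r)
  have r1 := Int.emod_nonneg a hm.ne'
  have r1' := Int.emod_lt_of_pos a hm
  have hmR : (0 : ℝ) < 2 ^ r := by positivity
  have e : ((a / 2 ^ r : ℤ) : ℝ) - (a : ℝ) / 2 ^ r = -(((a % 2 ^ r : ℤ) : ℝ) / 2 ^ r) := by
    have h2 : (a : ℝ) = 2 ^ r * ((a / 2 ^ r : ℤ) : ℝ) + ((a % 2 ^ r : ℤ) : ℝ) := by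
      exact_mod_cast h1.symm
    rw [h2]
    field_simp
    ring
  rw [e, abs_neg, abs_div, abs_of_pos hmR, div_le_one hmR]
  have h3 : |((a % 2 ^ r : ℤ) : ℝ)| = ((a % 2 ^ r : ℤ) : ℝ) := abs_of_nonneg (by exact_mod_cast r1)
  rw [h3]
  exact_mod_cast r1'.le

/-- The lost digits. -/
noncomputable def Ls (c r : ℕ) : ℝ := c * Real.log (2 * 2 ^ r + 1)

theorem Ls_nn (c r : ℕ) : 0 ≤ Ls c r := by
  unfold Ls
  have : (0 : ℝ) ≤ Real.log (2 * 2 ^ r + 1) := Real.log_nonneg (by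
    have : (0 : ℝ) < 2 ^ r := by positivity
    linarith)
  positivity

/-- One block of the divided heights. -/
theorem block_scl {Ω U V : Type} [Fintype Ω] {p : Ω → ℝ} (hp : IsLaw p) (nu : Ω → Fin c → ℤ)
    (Z : Ω → U) (Z' : Ω → V) (hZ : ∀ ω ω', Z' ω = Z' ω' → Z ω = Z ω') (n : Fin c) (r s s' : ℕ) :
    CH p (fun ω => nu ω n / 2 ^ r / 2 ^ s) (fun ω => (nu ω n / 2 ^ r / 2 ^ s',
      ((fun i : {i : Fin c // i ≠ n} => nu ω i / 2 ^ r / 2 ^ s), Z' ω))) ≤
    CH p (fun ω => nu ω n / 2 ^ s) (fun ω => (nu ω n / 2 ^ s',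
      ((fun i : {i : Fin c // i ≠ n} => nu ω i / 2 ^ s), Z ω))) + Ls c r := by
  have hp0 := hp.nonneg
  obtain ⟨W, hW⟩ : ∃ W : Ω → ℤ × (({i : Fin c // i ≠ n} → ℤ) × V), W = fun ω =>
    (nu ω n / 2 ^ r / 2 ^ s', ((fun i : {i : Fin c // i ≠ n} => nu ω i / 2 ^ r / 2 ^ s),
      Z' ω)) := ⟨_, rfl⟩
  rw [← hW]
  have comm : ∀ (a : ℤ) (s : ℕ), a / 2 ^ r / 2 ^ s = a / 2 ^ s / 2 ^ r := by
    intro a s
    rw [Int.ediv_ediv_of_nonneg (by positivity), Int.ediv_ediv_of_nonneg (by positivity), mul_comm]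
  have a1 : CH p (fun ω => nu ω n / 2 ^ r / 2 ^ s) W ≤ CH p (fun ω => nu ω n / 2 ^ s) W := by
    refine CH_mono_left hp0 fun ω ω' _ _ h => ?_
    have h1 := (Prod.ext_iff.1 h).1
    simp only at h1
    simp only [comm, h1]
  obtain ⟨Bv, hBv⟩ : ∃ Bv : Ω → Fin c → ℤ, Bv = fun ω i =>
    if i = n then nu ω i / 2 ^ s' else nu ω i / 2 ^ s := ⟨_, rfl⟩
  have a3 := CH_le_add hp0 (fun ω => nu ω n / 2 ^ s) Bv W
  have a4 := CH_le_vec hp0 hp.sum_one Bv W (fun _ => 2 ^ r) (by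
      intro ω ω' _ _ h i
      rw [hW] at h
      simp only [Prod.mk.injEq, comm] at h
      obtain ⟨h3, h4, -⟩ := h
      rw [hBv]
      simp only
      by_cases hi : i = n
      · rw [if_pos hi, if_pos hi]
        refine same_bd ?_
        rw [hi]
        exact h3
      · rw [if_neg hi, if_neg hi]
        exact same_bd (congrFun h4 ⟨i, hi⟩))
  rw [Ex_const hp.sum_one] at a4
  have a5 : CH p (fun ω => nu ω n / 2 ^ s) (fun ω => (Bv ω, W ω)) ≤
      CH p (fun ω => nu ω n / 2 ^ s) (fun ω => (nu ω n / 2 ^ s',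
      ((fun i : {i : Fin c // i ≠ n} => nu ω i / 2 ^ s), Z ω))) := by
    refine CH_mono_cond hp0 fun ω ω' _ _ h => ?_
    have h1 := (Prod.ext_iff.1 h).1
    have h2 := (Prod.ext_iff.1 h).2
    rw [hW] at h2
    rw [hBv] at h1
    simp only [Prod.mk.injEq] at h2 ⊢
    refine ⟨?_, ?_, hZ _ _ h2.2.2⟩
    · have := congrFun h1 n
      simpa using this
    · funext i
      have := congrFun h1 i.1
      simp only [if_neg i.2] at this
      exact this
  unfold Ls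
  linarith

/-- The hypotheses for the divided heights. -/
theorem scl_ok (H : QH c k) {n₀ : Fin c} {X B r : ℕ} {C c0 c0' d : ℝ} (hr : C ≤ 2 ^ r)
    (hX : 1 ≤ X) (hOk : H.Ok0 n₀ X B C c0 d)
    (hB : B * Ls c r ≤ (c0 - c0') * X * Real.log 2) :
    (H.scl r).Ok0 n₀ X B 3 c0' (d + (c * Real.log 3 + Ls c r)) := by
  have hp := hOk.law
  have hp0 := hp.nonneg
  have hrR : (0 : ℝ) < 2 ^ r := by positivity
  have hl3 : 0 ≤ c * Real.log 3 + Ls c r := by
    have : (0 : ℝ) ≤ Real.log 3 := Real.log_nonneg (by norm_num)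
    have := Ls_nn c r
    positivity
  have hdiv : ∀ x : ℝ, |x| ≤ C → |x / 2 ^ r| ≤ 1 := by
    intro x hx
    rw [abs_div, abs_of_pos hrR, div_le_one hrR]
    exact hx.trans hr
  refine
    { law := hp
      tau_r := hOk.tau_r
      y_r := fun v => hOk.y_r v.1
      E_b := fun t u i => (hdiv _ (hOk.E_b t u i)).trans (by norm_num)
      be_b := fun v i => (hdiv _ (hOk.be_b v.1 i)).trans (by norm_num)
      hgt_b := ?_
      g_eq := ?_
      h0 := ?_
      h2 := ?_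
      y_f := ?_
      t_f := ?_
      nf := ?_ }
  · intro ω i
    have h1 := hOk.hgt_b ω i
    have h2 := div_add_bd (H.nu ω i) (H.g (H.th ω) (H.v ω) i) r
    have h3 := div_real (H.hgt ω i) r
    have e : ((H.scl r).hgt ω i : ℝ) = ((H.hgt ω i / 2 ^ r : ℤ) : ℝ) -
        (((H.nu ω i + H.g (H.th ω) (H.v ω) i) / 2 ^ r -
          (H.nu ω i / 2 ^ r + H.g (H.th ω) (H.v ω) i / 2 ^ r) : ℤ) : ℝ) := by
      have : (H.scl r).hgt ω i = H.nu ω i / 2 ^ r + H.g (H.th ω) (H.v ω) i / 2 ^ r := rfl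
      rw [this]
      have h4 : H.hgt ω i = H.nu ω i + H.g (H.th ω) (H.v ω) i := rfl
      rw [h4]
      push_cast
      ring
    rw [e]
    have h5 : |(((H.nu ω i + H.g (H.th ω) (H.v ω) i) / 2 ^ r -
          (H.nu ω i / 2 ^ r + H.g (H.th ω) (H.v ω) i / 2 ^ r) : ℤ) : ℝ)| ≤ 1 := by
      have : |(H.nu ω i + H.g (H.th ω) (H.v ω) i) / 2 ^ r -
          (H.nu ω i / 2 ^ r + H.g (H.th ω) (H.v ω) i / 2 ^ r)| ≤ 1 := by
        rw [abs_le]
        constructor <;> linarith [h2.1, h2.2]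
      exact_mod_cast this
    have h6 : |(H.hgt ω i : ℝ) / 2 ^ r| ≤ 2 ^ X := by
      rw [abs_div, abs_of_pos hrR, div_le_iff₀ hrR]
      have : (0 : ℝ) < 2 ^ X := by positivity
      nlinarith
    have h7 : (2 : ℝ) ≤ 2 ^ X := by
      calc (2 : ℝ) = 2 ^ 1 := by norm_num
        _ ≤ 2 ^ X := pow_le_pow_right₀ (by norm_num) hX
    rw [abs_le] at h3 h5 h6 ⊢
    constructor <;> linarith [h3.1, h3.2, h5.1, h5.2, h6.1, h6.2]
  · intro t v i
    have h1 := hOk.g_eq t v.1 i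
    have h3 := div_real (H.g t v.1 i) r
    have h2 := hdiv _ h1
    have e : (((H.scl r).g t v i : ℤ) : ℝ) = ((H.g t v.1 i / 2 ^ r : ℤ) : ℝ) := rfl
    have e2 : (H.scl r).tau t * (H.scl r).be v i - ∑ u, (H.scl r).E t u i * (H.scl r).y v u +
        (H.scl r).a0 t i + (H.scl r).b0 v i =
        (H.tau t * H.be v.1 i - ∑ u, H.E t u i * H.y v.1 u + H.a0 t i + H.b0 v.1 i) / 2 ^ r := by
      show (H.tau t : ℝ) * (H.be v.1 i / 2 ^ r) - ∑ u, H.E t u i / 2 ^ r * H.y v.1 u +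
        H.a0 t i / 2 ^ r + H.b0 v.1 i / 2 ^ r = _
      have : ∑ u, H.E t u i / 2 ^ r * (H.y v.1 u : ℝ) = (∑ u, H.E t u i * H.y v.1 u) / 2 ^ r := by
        rw [Finset.sum_div]
        exact Finset.sum_congr rfl fun u _ => by ring
      rw [this]
      ring
    rw [e, e2]
    have e3 : ((H.g t v.1 i / 2 ^ r : ℤ) : ℝ) - (H.tau t * H.be v.1 i -
        ∑ u, H.E t u i * H.y v.1 u + H.a0 t i + H.b0 v.1 i) / 2 ^ r =
        (((H.g t v.1 i / 2 ^ r : ℤ) : ℝ) - (H.g t v.1 i : ℝ) / 2 ^ r) +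
        ((H.g t v.1 i : ℝ) - (H.tau t * H.be v.1 i - ∑ u, H.E t u i * H.y v.1 u + H.a0 t i +
          H.b0 v.1 i)) / 2 ^ r := by ring
    rw [e3]
    refine (abs_add_le _ _).trans ?_
    linarith
  · have h1 := hOk.h0
    have h2 : CH H.p H.th H.line ≤ CH H.p H.th (H.scl r).line := by
      refine CH_mono_cond hp0 fun ω ω' _ _ h => ?_
      have e : H.line ω = H.line ω' := h
      have e1 := (Prod.ext_iff.1 e).1
      have e2 := Prod.ext_iff.1 (Prod.ext_iff.1 e).2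
      have e1' : H.nu ω = H.nu ω' := e1
      have e2' : H.v ω = H.v ω' := e2.1
      have e3' : H.b ω = H.b ω' := e2.2
      refine Prod.ext ?_ (Prod.ext ?_ e3')
      · funext i
        show H.nu ω i / 2 ^ r = H.nu ω' i / 2 ^ r
        rw [e1']
      · refine Prod.ext e2' ?_
        funext i
        show H.nu ω i % 2 ^ r = H.nu ω' i % 2 ^ r
        rw [e1']
    have e : CH (H.scl r).p (H.scl r).th (H.scl r).b = CH H.p H.th H.b := rfl
    have e' : CH (H.scl r).p (H.scl r).th (H.scl r).line = CH H.p H.th (H.scl r).line := rfl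
    rw [e, e']
    linarith
  · have h1 := hOk.h2
    have a1 := CH_le_add hp0 (H.scl r).hgt H.hgt (fun ω => (H.th ω, H.b ω))
    have a2 := CH_le_vec hp0 hp.sum_one (H.scl r).hgt (fun ω => (H.hgt ω, (H.th ω, H.b ω)))
      (fun _ => 1) (by
        intro ω ω' _ _ h i
        have h3 : H.hgt ω = H.hgt ω' := (Prod.ext_iff.1 h).1
        have g1 := div_add_bd (H.nu ω i) (H.g (H.th ω) (H.v ω) i) r
        have g2 := div_add_bd (H.nu ω' i) (H.g (H.th ω') (H.v ω') i) r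
        have e1 : H.nu ω i + H.g (H.th ω) (H.v ω) i = H.hgt ω i := rfl
        have e2 : H.nu ω' i + H.g (H.th ω') (H.v ω') i = H.hgt ω' i := rfl
        have e3 : (H.scl r).hgt ω i = H.nu ω i / 2 ^ r + H.g (H.th ω) (H.v ω) i / 2 ^ r := rfl
        have e4 : (H.scl r).hgt ω' i = H.nu ω' i / 2 ^ r + H.g (H.th ω') (H.v ω') i / 2 ^ r := rfl
        rw [e1] at g1
        rw [e2, ← h3] at g2
        have : |(H.scl r).hgt ω i - (H.scl r).hgt ω' i| ≤ 1 := by
          rw [e3, e4, abs_le]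
          constructor <;> linarith [g1.1, g1.2, g2.1, g2.2]
        exact_mod_cast this)
    rw [Ex_const hp.sum_one, show (2 : ℝ) * 1 + 1 = 3 by norm_num] at a2
    have a3 := CH_le_add hp0 H.hgt (fun ω (i : Fin c) => H.nu ω i % 2 ^ r)
      (fun ω => (H.v ω, (H.th ω, H.b ω)))
    have a4 := CH_le_vec hp0 hp.sum_one (fun ω (i : Fin c) => H.nu ω i % 2 ^ r)
      (fun ω => (H.v ω, (H.th ω, H.b ω))) (fun _ => 2 ^ r) (fun ω ω' _ _ _ i => mod_bd _ _ _)
    rw [Ex_const hp.sum_one] at a4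
    have a5 : CH H.p H.hgt (fun ω => ((fun (i : Fin c) => H.nu ω i % 2 ^ r),
        (H.v ω, (H.th ω, H.b ω)))) ≤
        CH H.p (H.scl r).hgt (fun ω => ((H.scl r).v ω, (H.th ω, H.b ω))) := by
      have b1 : CH H.p H.hgt (fun ω => ((fun (i : Fin c) => H.nu ω i % 2 ^ r),
        (H.v ω, (H.th ω, H.b ω)))) ≤
        CH H.p H.hgt (fun ω => ((H.scl r).v ω, (H.th ω, H.b ω))) := by
        refine CH_mono_cond hp0 fun ω ω' _ _ h => ?_
        have h3 := Prod.ext_iff.1 h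
        have h4 := Prod.ext_iff.1 h3.2
        exact Prod.ext (Prod.ext h4.1 h3.1) h4.2
      refine b1.trans (CH_mono_left hp0 fun ω ω' _ _ h => ?_)
      have h3 := Prod.ext_iff.1 h
      have h4 : (H.scl r).v ω = (H.scl r).v ω' := (Prod.ext_iff.1 h3.2).1
      have h5 : H.th ω = H.th ω' := (Prod.ext_iff.1 (Prod.ext_iff.1 h3.2).2).1
      have h6 : H.v ω = H.v ω' := (Prod.ext_iff.1 h4).1
      have h7 : (fun i => H.nu ω i % 2 ^ r) = fun i => H.nu ω' i % 2 ^ r := (Prod.ext_iff.1 h4).2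
      have h8 : (H.scl r).hgt ω = (H.scl r).hgt ω' := h3.1
      funext i
      have k1 : H.nu ω i % 2 ^ r = H.nu ω' i % 2 ^ r := congrFun h7 i
      have k2 : H.nu ω i / 2 ^ r + H.g (H.th ω) (H.v ω) i / 2 ^ r =
          H.nu ω' i / 2 ^ r + H.g (H.th ω') (H.v ω') i / 2 ^ r := congrFun h8 i
      rw [h5, h6] at k2
      have k3 : H.nu ω i / 2 ^ r = H.nu ω' i / 2 ^ r := add_right_cancel k2
      have k4 := Int.mul_ediv_add_emod (H.nu ω i) (2 ^ r)
      have k5 := Int.mul_ediv_add_emod (H.nu ω' i) (2 ^ r)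
      show H.nu ω i + H.g (H.th ω) (H.v ω) i = H.nu ω' i + H.g (H.th ω') (H.v ω') i
      rw [h5, h6, ← k4, ← k5, k1, k3]
    have e : CH (H.scl r).p (H.scl r).hgt (fun ω => ((H.scl r).th ω, (H.scl r).b ω)) =
      CH H.p (H.scl r).hgt (fun ω => (H.th ω, H.b ω)) := rfl
    have e' : CH (H.scl r).p (H.scl r).hgt (fun ω => ((H.scl r).v ω,
      ((H.scl r).th ω, (H.scl r).b ω))) =
      CH H.p (H.scl r).hgt (fun ω => ((H.scl r).v ω, (H.th ω, H.b ω))) := rfl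
    rw [e, e']
    unfold Ls
    linarith
  · have h1 := hOk.y_f
    have e : CH (H.scl r).p (fun ω => (H.scl r).y ((H.scl r).v ω)) (H.scl r).b =
      CH H.p (fun ω => H.y (H.v ω)) H.b := rfl
    rw [e]
    linarith
  · have h1 := hOk.t_f
    have e : CH (H.scl r).p (fun ω => (H.scl r).tau ((H.scl r).th ω)) (H.scl r).b =
      CH H.p (fun ω => H.tau (H.th ω)) H.b := rfl
    rw [e]
    linarith
  · have h1 := hOk.nf
    have key : nfb (H.scl r).p (H.scl r).nu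
        (fun ω => ((H.scl r).v ω, ((H.scl r).th ω, (H.scl r).b ω))) n₀ X B ≤
        nfb H.p H.nu (fun ω => (H.v ω, (H.th ω, H.b ω))) n₀ X B + B * Ls c r := by
      unfold nfb
      have e1 : (B : ℝ) * Ls c r = ∑ _j ∈ Finset.range B, Ls c r := by
        rw [Finset.sum_const, Finset.card_range, nsmul_eq_mul]
      rw [e1, ← Finset.sum_add_distrib]
      refine Finset.sum_le_sum fun j _ => ?_
      refine block_scl hp H.nu (fun ω => (H.v ω, (H.th ω, H.b ω)))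
        (fun ω => ((H.scl r).v ω, ((H.scl r).th ω, (H.scl r).b ω))) ?_ n₀ r _ _
      intro ω ω' h
      have h3 := Prod.ext_iff.1 h
      exact Prod.ext (Prod.ext_iff.1 h3.1).1 h3.2
    have e : (1 - c0) * X * Real.log 2 + (c0 - c0') * X * Real.log 2 =
      (1 - c0') * X * Real.log 2 := by ring
    linarith

/-- Lines with the same fibres. -/
theorem tup_ker {Ω Λ Λ' : Type} [Fintype Ω] {p : Ω → ℝ} (L : Ω → Λ) (L' : Ω → Λ')
    (h : ∀ ω ω', L ω = L ω' ↔ L' ω = L' ω') (N : ℕ) : tup p L N = tup p L' N := by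
  classical
  funext v
  rw [tup_eq, tup_eq]
  have e1 : (∀ j, L (v j) = L (v 0)) ↔ ∀ j, L' (v j) = L' (v 0) :=
    forall_congr' fun j => h _ _
  have e2 : law p L (L (v 0)) = law p L' (L' (v 0)) := by
    unfold law
    refine Finset.sum_congr rfl fun ω _ => ?_
    by_cases h1 : L ω = L (v 0)
    · rw [if_pos h1, if_pos ((h _ _).1 h1)]
    · rw [if_neg h1, if_neg fun h2 => h1 ((h _ _).2 h2)]
  by_cases h1 : ∀ j, L (v j) = L (v 0)
  · rw [if_pos h1, if_pos (e1.1 h1), e2]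
  · rw [if_neg h1, if_neg fun h2 => h1 (e1.2 h2)]

theorem scl_line (H : QH c k) (r : ℕ) (ω ω' : H.Ω) :
    (H.scl r).line ω = (H.scl r).line ω' ↔ H.line ω = H.line ω' := by
  constructor
  · intro h
    have h1 := Prod.ext_iff.1 h
    have h2 := Prod.ext_iff.1 h1.2
    have h3 : (H.scl r).v ω = (H.scl r).v ω' := h2.1
    have h4 : H.v ω = H.v ω' := (Prod.ext_iff.1 h3).1
    have h5 : (fun i => H.nu ω i % 2 ^ r) = fun i => H.nu ω' i % 2 ^ r := (Prod.ext_iff.1 h3).2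
    have h6 : (fun i => H.nu ω i / 2 ^ r) = fun i => H.nu ω' i / 2 ^ r := h1.1
    have h7 : H.b ω = H.b ω' := h2.2
    refine Prod.ext ?_ (Prod.ext h4 h7)
    funext i
    have k1 : H.nu ω i % 2 ^ r = H.nu ω' i % 2 ^ r := congrFun h5 i
    have k2 : H.nu ω i / 2 ^ r = H.nu ω' i / 2 ^ r := congrFun h6 i
    have k4 := Int.mul_ediv_add_emod (H.nu ω i) (2 ^ r)
    have k5 := Int.mul_ediv_add_emod (H.nu ω' i) (2 ^ r)
    show H.nu ω i = H.nu ω' i
    rw [← k4, ← k5, k1, k2]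
  · intro h
    have e1 := (Prod.ext_iff.1 h).1
    have e2 := Prod.ext_iff.1 (Prod.ext_iff.1 h).2
    have e1' : H.nu ω = H.nu ω' := e1
    have e2' : H.v ω = H.v ω' := e2.1
    have e3' : H.b ω = H.b ω' := e2.2
    refine Prod.ext ?_ (Prod.ext ?_ e3')
    · funext i
      show H.nu ω i / 2 ^ r = H.nu ω' i / 2 ^ r
      rw [e1']
    · refine Prod.ext e2' ?_
      funext i
      show H.nu ω i % 2 ^ r = H.nu ω' i % 2 ^ r
      rw [e1']

theorem Ok0_mono {H : QH c k} {n₀ : Fin c} {X B : ℕ} {C c0 d d' : ℝ} (h : H.Ok0 n₀ X B C c0 d)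
    (hd : d ≤ d') : H.Ok0 n₀ X B C c0 d' :=
  { law := h.law
    tau_r := h.tau_r
    y_r := h.y_r
    E_b := h.E_b
    be_b := h.be_b
    hgt_b := h.hgt_b
    g_eq := h.g_eq
    h0 := h.h0.trans hd
    h2 := h.h2.trans hd
    y_f := by
      have := h.y_f
      linarith
    t_f := by
      have := h.t_f
      linarith
    nf := h.nf }

/-- **The bound of the heights does not matter.** -/
theorem quad_scl (h : Quad0Stmt c k) : QuadStmt c k := by
  intro n₀ c0 hc0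
  obtain ⟨x0, J, hx0, h⟩ := h n₀ (c0 / 2) (by positivity)
  refine ⟨x0 / 2, J, by positivity, fun s B hs hB => ?_⟩
  obtain ⟨io, X0, hio, h⟩ := h 3 s B (by norm_num) hs hB
  refine ⟨io / 2, by positivity, fun C hC => ?_⟩
  have hl2 : 0 < Real.log 2 := Real.log_pos (by norm_num)
  have hBR : (0 : ℝ) < B := by exact_mod_cast hB
  obtain ⟨r, hr⟩ : ∃ r : ℕ, C ≤ 2 ^ r := by
    obtain ⟨r, hr⟩ := pow_unbounded_of_one_lt C (show (1 : ℝ) < 2 by norm_num)
    exact ⟨r, hr.le⟩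
  obtain ⟨X1, hX1⟩ := exists_nat_ge (B * Ls c r / (c0 / 2 * Real.log 2))
  obtain ⟨X2, hX2⟩ := exists_nat_ge ((c * Real.log 3 + Ls c r) / (io / 2))
  obtain ⟨X3, hX3⟩ := pow_big (2 ^ r) (x0 / 2) (by positivity)
  refine ⟨max (max X0 X1) (max (max X2 X3) 1), fun H X hX hOk hTM => ?_⟩
  have l0 : X0 ≤ X := (le_max_left _ _).trans ((le_max_left _ _).trans hX)
  have l1 : (X1 : ℝ) ≤ X := by
    exact_mod_cast (le_max_right _ _).trans ((le_max_left _ _).trans hX)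
  have l2 : (X2 : ℝ) ≤ X := by
    exact_mod_cast (le_max_left _ _).trans ((le_max_left _ _).trans ((le_max_right _ _).trans hX))
  have l3 : X3 ≤ X :=
    (le_max_right _ _).trans ((le_max_left _ _).trans ((le_max_right _ _).trans hX))
  have l4 : 1 ≤ X := (le_max_right _ _).trans ((le_max_right _ _).trans hX)
  have hb1 : B * Ls c r ≤ (c0 - c0 / 2) * X * Real.log 2 := by
    have h1 := hX1.trans l1
    rw [div_le_iff₀ (by positivity)] at h1
    linarith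
  have hb2 : c * Real.log 3 + Ls c r ≤ io / 2 * X := by
    have h1 := hX2.trans l2
    rw [div_le_iff₀ (by positivity)] at h1
    linarith
  have hk := scl_ok H hr l4 hOk hb1
  have hk' : (H.scl r).Ok0 n₀ X B 3 (c0 / 2) (io * X) := Ok0_mono hk (by linarith)
  have ht : ∀ N, tup (H.scl r).p (H.scl r).line N = tup H.p H.line N := fun N =>
    tup_ker (p := H.p) (H.scl r).line H.line (scl_line H r) N
  have hT : (H.scl r).TM X s (c0 / 2 / 32) := by
    unfold QH.TM at hTM ⊢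
    rw [ht]
    have h2 : c0 / 2 / 32 = c0 / 64 := by ring
    rw [h2]
    exact hTM
  obtain ⟨f, hf, hP⟩ := h (H.scl r) X l0 hk' hT
  refine ⟨fun t => ((f t).1, (fun u => 2 ^ r * (f t).2.1 u, fun u => 2 ^ r * (f t).2.2 u)), hf, ?_⟩
  rw [ht] at hP
  have hc : c0 / 2 / 8 = c0 / 16 := by ring
  rw [hc] at hP
  refine hP.trans (Pb_mono (tup_nonneg hOk.law.nonneg _ _) fun v _ hv u => ?_)
  have h1 := hv u
  have hrR : (0 : ℝ) < 2 ^ r := by positivity
  have e : ∑ i, (f fun j => H.th (v j.succ)).1 i * H.E (H.th (v 0)) u i -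
      2 ^ r * (f fun j => H.th (v j.succ)).2.1 u -
      2 ^ r * (f fun j => H.th (v j.succ)).2.2 u * H.tau (H.th (v 0)) =
      2 ^ r * (∑ i, (f fun j => H.th (v j.succ)).1 i * (H.E (H.th (v 0)) u i / 2 ^ r) -
      (f fun j => H.th (v j.succ)).2.1 u -
      (f fun j => H.th (v j.succ)).2.2 u * H.tau (H.th (v 0))) := by
    have e2 : ∑ i, (f fun j => H.th (v j.succ)).1 i * (H.E (H.th (v 0)) u i / 2 ^ r) =
        (∑ i, (f fun j => H.th (v j.succ)).1 i * H.E (H.th (v 0)) u i) / 2 ^ r := by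
      rw [Finset.sum_div]
      exact Finset.sum_congr rfl fun i _ => by ring
    rw [e2]
    field_simp
  have h2 : |∑ i, (f fun j => H.th (v j.succ)).1 i * (H.E (H.th (v 0)) u i / 2 ^ r) -
      (f fun j => H.th (v j.succ)).2.1 u -
      (f fun j => H.th (v j.succ)).2.2 u * H.tau (H.th (v 0))| ≤ (2 : ℝ) ^ (-(x0 * X)) := h1
  have h3 := hX3 X l3
  have h4 : (2 : ℝ) ^ (-(x0 * X)) = (2 : ℝ) ^ (-(x0 / 2 * X)) * (2 : ℝ) ^ (-(x0 / 2 * X)) := by
    rw [← Real.rpow_add (by norm_num)]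
    congr 1
    ring
  show |∑ i, (f fun j => H.th (v j.succ)).1 i * H.E (H.th (v 0)) u i -
      2 ^ r * (f fun j => H.th (v j.succ)).2.1 u -
      2 ^ r * (f fun j => H.th (v j.succ)).2.2 u * H.tau (H.th (v 0))| ≤ _
  rw [e, abs_mul, abs_of_pos hrR]
  have h5 : (0 : ℝ) ≤ (2 : ℝ) ^ (-(x0 / 2 * X)) := by positivity
  calc 2 ^ r * |∑ i, (f fun j => H.th (v j.succ)).1 i * (H.E (H.th (v 0)) u i / 2 ^ r) -
      (f fun j => H.th (v j.succ)).2.1 u -
      (f fun j => H.th (v j.succ)).2.2 u * H.tau (H.th (v 0))| ≤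
        2 ^ r * (2 : ℝ) ^ (-(x0 * X)) := mul_le_mul_of_nonneg_left h2 hrR.le
    _ = (2 ^ r * (2 : ℝ) ^ (-(x0 / 2 * X))) * (2 : ℝ) ^ (-(x0 / 2 * X)) := by
        rw [h4]
        ring
    _ ≤ 1 * (2 : ℝ) ^ (-(x0 / 2 * X)) := mul_le_mul_of_nonneg_right h3 h5
    _ = _ := one_mul _

/-- **QUAD from COMB and STAR.** -/
theorem quad_of (hS : StarStmt c k) (hC : Pool.QC.CombB c k) : QuadStmt c k :=
  quad_scl (quad_of_R (quadR hS hC))

end Pool.QT64
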