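import Pool.Agent.H64.QUAD.Scl
import Pool.Agent.H79.QUAD.Star
import Pool.Agent.H98.QW.SelB
import Pool.Agent.H74.ROW.Full
import Pool.Agent.H16.ROW.RowD

/-!
# Row 366: QUAD
-/

set_option autoImplicit false

namespace Pool.QT64

/-- **FULL.** -/
theorem full_stmt (c k : ℕ) : Pool.QC.FullStmt c k :=
  Pool.ROW74.full_of_rowd (Pool.ROW16.rowD c k)

/-- **COMB.** -/
theorem combB (c k : ℕ) : Pool.QC.CombB c k := Pool.QC98.comb_b (full_stmt c k)

/-- **QUAD.** -/
theorem quad (c k : ℕ) : QuadStmt c k := quad_of (star_stmt c k) (combB c k)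

end Pool.QT64
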