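import Pool.Agent.H21.QW.Comb

/-!
# Three times of a graph to which COMB applies
-/

set_option autoImplicit false

namespace Pool.QT64

open Finset Real
open Pool.Agent.H49.Ent Pool.Agent.H32.Dense Pool.STK Pool.KS6
open Pool.QC (QD)

variable {c k : ℕ}

/-- From all rounded ratios to the exact one. -/
theorem ratio_exact (ν A B : Fin c → ℝ) (X : ℕ) {ε : ℝ} (α β : ℤ) (hαβ : |β| ≤ |α|)
    (hα : |α| ≤ 2 ^ X)
    (h : ∀ v : ℤ, |v| ≤ 2 ^ X → |2 ^ X * β - v * α| ≤ 4 * 2 ^ X →
      |∑ i, ν i * (B i - (v : ℝ) / 2 ^ X * A i)| ≤ ε) :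
    |∑ i, ν i * (B i * α - A i * β)| ≤ 3 * ε * 2 ^ X := by
  have hε : 0 ≤ ε := by
    by_cases h0 : α = 0
    · have hβ : β = 0 := by
        rw [h0, abs_zero] at hαβ
        exact abs_nonpos_iff.1 hαβ
      refine (abs_nonneg _).trans (h 0 (by simp) ?_)
      rw [h0, hβ]
      simp
    · have hr0 := Int.emod_nonneg (2 ^ X * β) h0
      have hr1 := Int.emod_lt_abs (2 ^ X * β) h0
      refine (abs_nonneg _).trans (h ((2 ^ X * β) / α) ?_ ?_)
      · have h2 := Int.mul_ediv_add_emod (2 ^ X * β) α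
        have h3 : |(2 ^ X * β) / α * α| ≤ |2 ^ X * β| + |α| := by
          have : (2 ^ X * β) / α * α = 2 ^ X * β - (2 ^ X * β) % α := by linarith
          rw [this]
          refine (abs_sub _ _).trans ?_
          rw [abs_of_nonneg hr0]
          linarith
        have hαpos : 0 < |α| := abs_pos.2 h0
        have h4 : |(2 ^ X * β) / α| * |α| < (2 ^ X + 1 + 1) * |α| := by
          rw [← abs_mul]
          have : |2 ^ X * β| ≤ 2 ^ X * |α| := by
            rw [abs_mul, abs_of_nonneg (by positivity : (0 : ℤ) ≤ 2 ^ X)]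
            exact mul_le_mul_of_nonneg_left hαβ (by positivity)
          nlinarith
        have h5 : |2 ^ X * β| ≤ 2 ^ X * |α| := by
          rw [abs_mul, abs_of_nonneg (by positivity : (0 : ℤ) ≤ 2 ^ X)]
          exact mul_le_mul_of_nonneg_left hαβ (by positivity)
        rw [abs_le] at h5 ⊢
        rcases lt_or_gt_of_ne h0 with hn | hp
        · rw [abs_of_neg hn] at h5 hr1
          constructor <;> nlinarith
        · rw [abs_of_pos hp] at h5 hr1
          constructor <;> nlinarith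
      · have h2 := Int.mul_ediv_add_emod (2 ^ X * β) α
        have : 2 ^ X * β - (2 ^ X * β) / α * α = (2 ^ X * β) % α := by linarith
        rw [this, abs_of_nonneg hr0]
        have : (0 : ℤ) ≤ 2 ^ X := by positivity
        linarith
  by_cases h0 : α = 0
  · have hβ : β = 0 := by
      rw [h0, abs_zero] at hαβ
      exact abs_nonpos_iff.1 hαβ
    rw [h0, hβ]
    simp
    positivity
  set r : ℤ := (2 ^ X * β) % α with hr
  set v : ℤ := (2 ^ X * β) / α with hv
  have hr0 : 0 ≤ r := Int.emod_nonneg _ h0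
  have hr1 : r < |α| := Int.emod_lt_abs _ h0
  have hdiv : v * α + r = 2 ^ X * β := by
    have := Int.mul_ediv_add_emod (2 ^ X * β) α
    rw [hv, hr]
    linarith
  have h5 : |2 ^ X * β| ≤ 2 ^ X * |α| := by
    rw [abs_mul, abs_of_nonneg (by positivity : (0 : ℤ) ≤ 2 ^ X)]
    exact mul_le_mul_of_nonneg_left hαβ (by positivity)
  have hpX : (1 : ℤ) ≤ 2 ^ X := one_le_pow₀ (by norm_num)
  have hvX : |v| ≤ 2 ^ X := by
    rw [abs_le] at h5 ⊢
    rcases lt_or_gt_of_ne h0 with hn | hp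
    · rw [abs_of_neg hn] at h5 hr1
      constructor <;> nlinarith
    · rw [abs_of_pos hp] at h5 hr1
      constructor <;> nlinarith
  obtain ⟨v', hv', hd⟩ : ∃ v' : ℤ, |v'| ≤ 2 ^ X ∧ |v' - v| = 1 := by
    rcases lt_or_ge v (2 ^ X) with h1 | h1
    · refine ⟨v + 1, ?_, by simp⟩
      rw [abs_le] at hvX ⊢
      constructor <;> linarith
    · refine ⟨v - 1, ?_, by simp⟩
      rw [abs_le] at hvX ⊢
      constructor <;> linarith
  have e1 := h v hvX (by
    have : 2 ^ X * β - v * α = r := by linarith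
    rw [this, abs_of_nonneg hr0]
    linarith)
  have e2 := h v' hv' (by
    have : 2 ^ X * β - v' * α = r - (v' - v) * α := by linarith
    rw [this]
    refine (abs_sub _ _).trans ?_
    rw [abs_mul, hd, abs_of_nonneg hr0]
    linarith)
  -- the increment of the slope
  obtain ⟨a, ha⟩ : ∃ a : ℝ, a = ∑ i, ν i * A i := ⟨_, rfl⟩
  obtain ⟨b, hb⟩ : ∃ b : ℝ, b = ∑ i, ν i * B i := ⟨_, rfl⟩
  have f1 : ∀ v : ℤ, ∑ i, ν i * (B i - (v : ℝ) / 2 ^ X * A i) = b - (v : ℝ) / 2 ^ X * a := by
    intro v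
    rw [ha, hb, Finset.mul_sum, ← Finset.sum_sub_distrib]
    exact Finset.sum_congr rfl fun i _ => by ring
  rw [f1] at e1 e2
  have f2 : ∑ i, ν i * (B i * α - A i * β) = b * α - a * β := by
    rw [ha, hb, Finset.sum_mul, Finset.sum_mul, ← Finset.sum_sub_distrib]
    exact Finset.sum_congr rfl fun i _ => by ring
  rw [f2]
  have hP : (0 : ℝ) < 2 ^ X := by positivity
  have e3 : |a| / 2 ^ X ≤ 2 * ε := by
    have g1 : ((v' : ℝ) - v) / 2 ^ X * a = (b - (v : ℝ) / 2 ^ X * a) - (b - (v' : ℝ) / 2 ^ X * a) := by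
      ring
    have g2 : |((v' : ℝ) - v) / 2 ^ X * a| = |a| / 2 ^ X := by
      rw [abs_mul, abs_div, abs_of_pos hP]
      have : |(v' : ℝ) - v| = 1 := by exact_mod_cast hd
      rw [this]
      ring
    rw [← g2, g1]
    refine (abs_sub _ _).trans ?_
    linarith
  have hrR : (v : ℝ) * α + r = 2 ^ X * β := by exact_mod_cast hdiv
  have e4 : b * α - a * β = α * (b - (v : ℝ) / 2 ^ X * a) - r * (a / 2 ^ X) := by
    have : (β : ℝ) = (v * α + r) / 2 ^ X := by
      rw [hrR]
      field_simp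
    rw [this]
    ring
  rw [e4]
  refine (abs_sub _ _).trans ?_
  rw [abs_mul, abs_mul, abs_div, abs_of_pos hP]
  have hαR : |(α : ℝ)| ≤ 2 ^ X := by exact_mod_cast hα
  have hrR' : |(r : ℝ)| ≤ 2 ^ X := by
    have : |r| ≤ 2 ^ X := by
      rw [abs_of_nonneg hr0]
      linarith
    exact_mod_cast this
  have g3 := mul_le_mul hαR e1 (abs_nonneg _) hP.le
  have g4 := mul_le_mul hrR' e3 (by positivity) hP.le
  linarith

open Classical in
/-- Three times with many common neighbours. -/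
theorem det_small (D : QD c k) {X m : ℕ} {q1 ε C q : ℝ} (hD : D.Ok X C q) (ν : Fin c → ℝ)
    (h : ∀ (w : Bool) (δ : Fin c → ℝ), D.Cand X m q1 0 w δ → |∑ i, ν i * δ i| ≤ ε)
    {N : ℕ} (s : Fin N → D.TT) (hs : q1 ≤ D.cnV s) (j0 j1 j2 : Fin N) (u : Fin k) :
    |∑ i, ν i * ((D.E (s j2) u i - D.E (s j0) u i) * (D.tau (s j1) - D.tau (s j0)) -
      (D.E (s j1) u i - D.E (s j0) u i) * (D.tau (s j2) - D.tau (s j0)))| ≤ 3 * ε * 2 ^ X := by
  have hle : ∀ {J : Type} (σ : J → Fin N), q1 ≤ D.cnV (fun j => s (σ j)) := by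
    intro J σ
    refine hs.trans ?_
    unfold QD.cnV
    refine Finset.sum_le_sum fun v _ => ?_
    have h0 : 0 ≤ D.vp v := hD.vp_nn v
    by_cases h1 : ∀ j, D.adj (s j) v
    · rw [if_pos h1, if_pos fun j => h1 (σ j)]
    · rw [if_neg h1]
      split_ifs
      · exact h0
      · exact le_rfl
  have key : ∀ j1 j2 : Fin N, |D.tau (s j2) - D.tau (s j0)| ≤ |D.tau (s j1) - D.tau (s j0)| →
      |∑ i, ν i * ((D.E (s j2) u i - D.E (s j0) u i) * (D.tau (s j1) - D.tau (s j0)) -
      (D.E (s j1) u i - D.E (s j0) u i) * (D.tau (s j2) - D.tau (s j0)))| ≤ 3 * ε * 2 ^ X := by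
    intro j1 j2 hj
    have hr0 := hD.tau_r (s j0)
    have hr1 := hD.tau_r (s j1)
    have hα : |D.tau (s j1) - D.tau (s j0)| ≤ 2 ^ X := by
      rw [abs_le]
      constructor <;> linarith [hr0.1, hr0.2, hr1.1, hr1.2]
    have := ratio_exact ν (fun i => D.E (s j1) u i - D.E (s j0) u i)
      (fun i => D.E (s j2) u i - D.E (s j0) u i) X (ε := ε) _ _ hj hα (by
        intro v hv hv'
        refine h false _ ⟨u, Or.inl ⟨fun i => s (![j1, j0] i), fun i => s (![j2, j0] i), ?_, ?_⟩⟩
        · have := hle (J := Fin 2 ⊕ Fin 2) (Sum.elim ![j1, j0] ![j2, j0])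
          refine this.trans (le_of_eq ?_)
          congr 1
          funext j
          rcases j with j | j <;> rfl
        · refine ⟨fun j hj => absurd (Subsingleton.elim j 0) hj, ?_, Or.inr ⟨rfl, v, hv, ?_, ?_⟩⟩
          · show |D.tau (s j1) - D.tau (s j0)| * 2 ^ 0 ≤ 2 ^ (X + 1)
            rw [pow_zero, mul_one, pow_succ]
            have : (0 : ℤ) < 2 ^ X := by positivity
            linarith
          · exact hv'
          · funext i
            rfl)
    push_cast at this
    exact this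
  rcases le_total |D.tau (s j2) - D.tau (s j0)| |D.tau (s j1) - D.tau (s j0)| with h1 | h1
  · exact key j1 j2 h1
  · have := key j2 j1 h1
    rw [← abs_neg, ← Finset.sum_neg_distrib] at this
    refine le_trans (le_of_eq ?_) this
    congr 1
    exact Finset.sum_congr rfl fun i _ => by ring

end Pool.QT64
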