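import Pool.Agent.H64.QUAD.Wl
import Pool.Agent.H64.QUAD.Det
import Pool.Agent.H70.QUAD.OutF

/-!
# Row 366: QUAD from COMB and STAR
-/

set_option autoImplicit false

namespace Pool.QT64

open Finset Real Matrix
open Pool.Agent.H49.Ent Pool.Agent.H32.Dense Pool.STK Pool.KS6 Pool.SLO
open Pool.BFL (Pb)
open Pool.QC (QD nfb)
open Pool.QUAD70 (Cov out_fam pb_marg)
open Pool.FEK74 (tup_nest interp)

variable {c k : ℕ}

/-! ### Probabilities -/

section prob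

variable {W : Type} [Fintype W] {q : W → ℝ}

theorem Pb_le3 (hq : ∀ w, 0 ≤ q w) {A B₁ B₂ G : W → Prop}
    (h : ∀ w, 0 < q w → A w → B₁ w ∨ B₂ w ∨ G w) : Pb q A ≤ Pb q B₁ + Pb q B₂ + Pb q G := by
  classical
  unfold Pb
  rw [← Finset.sum_add_distrib, ← Finset.sum_add_distrib]
  refine Finset.sum_le_sum fun w _ => ?_
  have h0 := hq w
  have a1 : 0 ≤ (if B₁ w then q w else 0) := by split_ifs <;> first | exact h0 | exact le_rfl
  have a2 : 0 ≤ (if B₂ w then q w else 0) := by split_ifs <;> first | exact h0 | exact le_rfl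
  have a3 : 0 ≤ (if G w then q w else 0) := by split_ifs <;> first | exact h0 | exact le_rfl
  by_cases hA : A w
  · rw [if_pos hA]
    rcases h0.eq_or_lt with hz | hz
    · rw [← hz] at a1 a2 a3 ⊢
      linarith
    · rcases h w hz hA with h1 | h1 | h1
      · rw [if_pos h1]
        linarith
      · rw [if_pos h1]
        linarith
      · rw [if_pos h1]
        linarith
  · rw [if_neg hA]
    linarith

theorem Pb_mono (hq : ∀ w, 0 ≤ q w) {A B : W → Prop} (h : ∀ w, 0 < q w → A w → B w) :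
    Pb q A ≤ Pb q B := by
  classical
  unfold Pb
  refine Finset.sum_le_sum fun w _ => ?_
  have h0 := hq w
  by_cases hA : A w
  · rw [if_pos hA]
    rcases h0.eq_or_lt with hz | hz
    · rw [← hz]
      split_ifs <;> exact le_rfl
    · rw [if_pos (h w hz hA)]
  · rw [if_neg hA]
    split_ifs
    · exact h0
    · exact le_rfl

end prob

/-! ### The determinants -/

/-- The determinants of three times. -/
noncomputable def dt (H : QH c k) (X : ℕ) (t : Fin 3 → H.Tt) (u : Fin k) (i : Fin c) : ℝ :=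
  ((H.E (t 2) u i - H.E (t 0) u i) * (H.tau (t 1) - H.tau (t 0)) -
    (H.E (t 1) u i - H.E (t 0) u i) * (H.tau (t 2) - H.tau (t 0))) / 2 ^ X

/-- The covector of COMB kills the determinants. -/
theorem gd_cov (H : QH c k) {n₀ : Fin c} {X B : ℕ} {C' c1 ka ε0 x1 C1 : ℝ} {m : ℕ}
    (hka : 0 < ka) (hC1 : 1 ≤ C1)
    (hComb : ∀ (D : QD c k), D.Ok X C' ((2 : ℝ) ^ (-(ka * X))) →
      ∀ (Ω : Type) (_ : Fintype Ω) (p : Ω → ℝ) (R : Ω → Fin c → ℤ), IsLaw p →
      (∀ ω i, |(R ω i : ℝ)| ≤ C' * 2 ^ X) → Pool.QC.Absb p R D.A (ε0 * X) →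
      nfb p R (fun _ => ()) n₀ X B ≤ (1 - c1) * X * Real.log 2 →
      ∃ ν : Fin c → ℝ, ν n₀ = 1 ∧ (∀ i, |ν i| ≤ (2 : ℝ) ^ ((X : ℝ) / B)) ∧
        ∀ (w : Bool) (δ : Fin c → ℝ), D.Cand X m (((2 : ℝ) ^ (-(ka * X))) ^ C1) 0 w δ →
          |∑ i, ν i * δ i| ≤ (2 : ℝ) ^ (-(x1 * X)))
    {N : ℕ} {t : Fin N → H.Tt} (h : H.Gd n₀ X B C' c1 ka ε0 t) :
    ∃ ν : Fin c → ℝ, Cov n₀ ((2 : ℝ) ^ ((X : ℝ) / B)) ν ∧
      ∀ (σ : Fin 3 → Fin N) (u : Fin k), |ν ⬝ᵥ dt H X (fun j => t (σ j)) u| ≤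
        3 * (2 : ℝ) ^ (-(x1 * X)) := by
  obtain ⟨D, ΩR, iR, pR, R, s, hD, hp, hR, hA, hn, hs, hcn⟩ := h
  obtain ⟨ν, h1, h2, h3⟩ := hComb D hD ΩR iR pR R hp hR hA hn
  refine ⟨ν, ⟨h1, fun l _ => h2 l⟩, fun σ u => ?_⟩
  have hq1 : ((2 : ℝ) ^ (-(ka * X))) ^ C1 ≤ D.cnV s := by
    refine le_trans ?_ hcn
    have h4 : (2 : ℝ) ^ (-(ka * X)) ≤ 1 := by
      apply Real.rpow_le_one_of_one_le_of_nonpos (by norm_num)
      have : 0 ≤ ka * X := by positivity
      linarith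
    have h5 : (0 : ℝ) < (2 : ℝ) ^ (-(ka * X)) := by positivity
    calc ((2 : ℝ) ^ (-(ka * X))) ^ C1 ≤ ((2 : ℝ) ^ (-(ka * X))) ^ (1 : ℝ) :=
          Real.rpow_le_rpow_of_exponent_ge h5 h4 hC1
      _ = _ := Real.rpow_one _
  have h4 := det_small D hD ν h3 s hq1 (σ 0) (σ 1) (σ 2) u
  have hX : (0 : ℝ) < 2 ^ X := by positivity
  have e1 : ν ⬝ᵥ dt H X (fun j => t (σ j)) u =
      (∑ i, ν i * ((D.E (s (σ 2)) u i - D.E (s (σ 0)) u i) *
        (D.tau (s (σ 1)) - D.tau (s (σ 0))) - (D.E (s (σ 1)) u i - D.E (s (σ 0)) u i) *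
        (D.tau (s (σ 2)) - D.tau (s (σ 0))))) / 2 ^ X := by
    unfold dotProduct dt
    rw [Finset.sum_div]
    refine Finset.sum_congr rfl fun i _ => ?_
    rw [(hs (σ 0)).1, (hs (σ 1)).1, (hs (σ 2)).1, (hs (σ 0)).2, (hs (σ 1)).2, (hs (σ 2)).2]
    ring
  rw [e1, abs_div, abs_of_pos hX, div_le_iff₀ hX]
  exact h4

/-- The equivalence between triples and samples; the third sample of the triple `0` is the sample
`0`. -/
theorem exists_equiv (J : ℕ) : ∃ e : Fin (J + 1 + 1) × Fin (2 + 1) ≃ Fin (3 * J + 5 + 1),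
    e (0, 2) = 0 := by
  let e0 : Fin (J + 1 + 1) × Fin (2 + 1) ≃ Fin (3 * J + 5 + 1) :=
    finProdFinEquiv.trans (finCongr (by ring))
  exact ⟨e0.trans (Equiv.swap (e0 (0, 2)) 0), by simp⟩

/-- The extended tuple. -/
def ex1 {T : Type} {N : ℕ} (t : Fin (N + 1) → T) : Fin (N + 1 + 1) → T := Fin.cons (t 0) t

theorem ex1_of {T : Type} {N : ℕ} (v : Fin (N + 1 + 1) → T) {x : Fin (N + 1 + 1)} (hx : x ≠ 0) :
    ex1 (fun j : Fin (N + 1) => v j.succ) x = v x := by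
  obtain ⟨y, rfl⟩ := Fin.exists_succ_eq.2 hx
  rfl

/-- The output. -/
noncomputable def outF (H : QH c k) (X J : ℕ)
    (e : Fin (J + 1 + 1) × Fin (2 + 1) ≃ Fin (3 * J + 5 + 1))
    (f : (Fin (J + 1) → Fin k → Fin c → ℝ) → Fin c → ℝ) (t : Fin (3 * J + 4 + 1) → H.Tt) :
    (Fin c → ℝ) × ((Fin k → ℝ) × (Fin k → ℝ)) :=
  (f (fun i => dt H X (fun j => ex1 t (e (i.succ, j)))),
    (fun u => ∑ i, f (fun i => dt H X (fun j => ex1 t (e (i.succ, j)))) i *
        H.E (ex1 t (e (0, 0))) u i -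
      (∑ i, f (fun i => dt H X (fun j => ex1 t (e (i.succ, j)))) i * H.E (ex1 t (e (0, 1))) u i -
        ∑ i, f (fun i => dt H X (fun j => ex1 t (e (i.succ, j)))) i * H.E (ex1 t (e (0, 0))) u i) /
        (H.tau (ex1 t (e (0, 1))) - H.tau (ex1 t (e (0, 0)))) * H.tau (ex1 t (e (0, 0))),
    fun u => (∑ i, f (fun i => dt H X (fun j => ex1 t (e (i.succ, j)))) i *
        H.E (ex1 t (e (0, 1))) u i -
        ∑ i, f (fun i => dt H X (fun j => ex1 t (e (i.succ, j)))) i * H.E (ex1 t (e (0, 0))) u i) /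
        (H.tau (ex1 t (e (0, 1))) - H.tau (ex1 t (e (0, 0))))))

theorem out_good (H : QH c k) (X J : ℕ) (e : Fin (J + 1 + 1) × Fin (2 + 1) ≃ Fin (3 * J + 5 + 1))
    (he : e (0, 2) = 0) (f : (Fin (J + 1) → Fin k → Fin c → ℝ) → Fin c → ℝ)
    (v : Fin (3 * J + 5 + 1) → H.Tt) {s δ : ℝ} (hs : 0 < s)
    (hab : s * 2 ^ X < |((H.tau (v (e (0, 0))) - H.tau (v (e (0, 1))) : ℤ) : ℝ)|) (u : Fin k)
    (hd : |f (fun i => dt H X (fun j => v (e (i.succ, j)))) ⬝ᵥ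
      dt H X (fun j => v (e (0, j))) u| ≤ δ) :
    |∑ i, (outF H X J e f fun j => v j.succ).1 i * H.E (v 0) u i -
      (outF H X J e f fun j => v j.succ).2.1 u -
      (outF H X J e f fun j => v j.succ).2.2 u * H.tau (v 0)| ≤ δ / s := by
  have hx : ∀ x, x ≠ (0, 2) → ex1 (fun j : Fin (3 * J + 4 + 1) => v j.succ) (e x) = v (e x) := by
    intro x hx
    refine ex1_of v fun h => hx ?_
    apply e.injective
    rw [he]
    exact h
  have h1 : ∀ i : Fin (J + 1), dt H X (fun j => ex1 (fun j : Fin (3 * J + 4 + 1) => v j.succ)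
      (e (i.succ, j))) = dt H X (fun j => v (e (i.succ, j))) := by
    intro i
    congr 1
    funext j
    refine hx _ fun h => ?_
    exact Fin.succ_ne_zero i (Prod.ext_iff.1 h).1
  have h00 : ex1 (fun j : Fin (3 * J + 4 + 1) => v j.succ) (e (0, 0)) = v (e (0, 0)) :=
    hx _ fun h => absurd (Prod.ext_iff.1 h).2 (show ¬ ((0 : Fin 3) = 2) by decide)
  have h01 : ex1 (fun j : Fin (3 * J + 4 + 1) => v j.succ) (e (0, 1)) = v (e (0, 1)) :=
    hx _ fun h => absurd (Prod.ext_iff.1 h).2 (show ¬ ((1 : Fin 3) = 2) by decide)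
  unfold outF
  simp only [h1, h00, h01]
  obtain ⟨n, hn⟩ : ∃ n : Fin c → ℝ, n = f (fun i => dt H X (fun j => v (e (i.succ, j)))) := ⟨_, rfl⟩
  rw [← hn] at hd ⊢
  have hX : (0 : ℝ) < 2 ^ X := by positivity
  have e1 : n ⬝ᵥ dt H X (fun j => v (e (0, j))) u =
      ((∑ i, n i * H.E (v 0) u i - ∑ i, n i * H.E (v (e (0, 0))) u i) *
        ((H.tau (v (e (0, 1))) : ℝ) - H.tau (v (e (0, 0)))) -
      (∑ i, n i * H.E (v (e (0, 1))) u i - ∑ i, n i * H.E (v (e (0, 0))) u i) *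
        ((H.tau (v 0) : ℝ) - H.tau (v (e (0, 0))))) / 2 ^ X := by
    unfold dotProduct dt
    simp only [he]
    rw [← Finset.sum_sub_distrib, ← Finset.sum_sub_distrib, Finset.sum_mul, Finset.sum_mul,
      ← Finset.sum_sub_distrib, Finset.sum_div]
    refine Finset.sum_congr rfl fun i _ => ?_
    ring
  rw [e1, abs_div, abs_of_pos hX, div_le_iff₀ hX] at hd
  have h5 : s * 2 ^ X ≤ |(H.tau (v (e (0, 0))) : ℝ) - H.tau (v (e (0, 1)))| := by
    refine hab.le.trans (le_of_eq ?_)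
    push_cast
    rfl
  have h6 := interp (s := s * 2 ^ X) (by positivity) h5 hd
  refine h6.trans (le_of_eq ?_)
  field_simp

/-- Powers beat constants. -/
theorem pow_big (K b : ℝ) (hb : 0 < b) :
    ∃ X0 : ℕ, ∀ X : ℕ, X0 ≤ X → K * (2 : ℝ) ^ (-(b * X)) ≤ 1 := by
  have h2 : 0 < Real.log 2 := Real.log_pos (by norm_num)
  obtain ⟨X0, hX0⟩ := exists_nat_ge (K / (b * Real.log 2))
  refine ⟨X0, fun X hX => ?_⟩
  have h1 : K ≤ (2 : ℝ) ^ (b * X) := by
    have h3 : K / (b * Real.log 2) ≤ X := hX0.trans (by exact_mod_cast hX)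
    rw [div_le_iff₀ (by positivity)] at h3
    have h4 : (2 : ℝ) ^ (b * X) = Real.exp (Real.log 2 * (b * X)) :=
      Real.rpow_def_of_pos (by norm_num) _
    have h5 := Real.add_one_le_exp (Real.log 2 * (b * X))
    rw [h4]
    linarith
  rw [Real.rpow_neg (by norm_num)]
  have h6 : (0 : ℝ) < (2 : ℝ) ^ (b * X) := by positivity
  rw [← div_eq_mul_inv, div_le_one h6]
  exact h1

/-- **QUAD from COMB and STAR.** -/
theorem quadR (hS : StarStmt c k) (hC : Pool.QC.CombB c k) : QuadRStmt c k := by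
  intro n₀ c0 hc0
  obtain ⟨J, hJ⟩ : ∃ J : ℕ, (c : ℝ) / (J + 2) ≤ c0 / 16 := by
    obtain ⟨J, hJ⟩ := exists_nat_ge ((c : ℝ) / (c0 / 16))
    refine ⟨J, ?_⟩
    rw [div_le_iff₀ (by positivity)] at hJ ⊢
    nlinarith
  refine ⟨c0 / 16, 3 * J + 4, by positivity, fun C s B hC1 hs hB => ?_⟩
  obtain ⟨C', hC', hS⟩ := hS n₀ C c0 hc0 hC1
  obtain ⟨m, ka, ε0, C1, X1, hka, hε0, hC11, hComb⟩ := hC n₀ (c0 / 4) (c0 / 8) C' B
    (by positivity) (by linarith) hC' hB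
  obtain ⟨io, X2, hio, hStar⟩ := hS (3 * J + 2) B ka ε0 (c0 / 32) hB hka hε0 (by positivity)
  obtain ⟨X3, hX3⟩ := pow_big (3 * c / s) (c0 / 16) (by positivity)
  refine ⟨io, max X1 (max X2 X3), hio, fun H X hX hOk hTM => ?_⟩
  obtain ⟨Ee, iE, r, NF, hr0, hr1, hNF, hbad⟩ := hStar H X
    ((le_max_left _ _).trans ((le_max_right _ _).trans hX)) hOk
  have hX1 : X1 ≤ X := (le_max_left _ _).trans hX
  have hX3' := hX3 X ((le_max_right _ _).trans ((le_max_right _ _).trans hX))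
  have hq : IsLaw (H.wl r) := wl_law H hOk.law hr0 hr1
  obtain ⟨M, hM⟩ : ∃ M : ℝ, M = (2 : ℝ) ^ ((X : ℝ) / B) := ⟨_, rfl⟩
  have hM1 : 1 ≤ M := by
    rw [hM]
    exact Real.one_le_rpow (by norm_num) (by positivity)
  have hM0 : 0 < M := by linarith
  obtain ⟨δ, hδ⟩ : ∃ δ : ℝ, δ = 3 * (2 : ℝ) ^ (-(c0 / 8 * X)) := ⟨_, rfl⟩
  have hδ0 : 0 < δ := by
    rw [hδ]
    positivity
  obtain ⟨D, hD⟩ : ∃ D : (Fin (2 + 1) → Ee × H.Ω) → Fin k → Fin c → ℝ,
      ∀ w u, (NF (w 0).1 → D w u = dt H X (fun j => H.th (w j).2) u) ∧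
        (¬ NF (w 0).1 → D w u = 0) := by
    classical
    exact ⟨fun w u => if NF (w 0).1 then dt H X (fun j => H.th (w j).2) u else 0,
      fun w u => ⟨fun h => if_pos h, fun h => if_neg h⟩⟩
  -- the bad event of the samples
  have h1 : Pb (tup (tup (H.wl r) H.KK 2) (fun u => H.KK (u 0)) J)
      (fun v => ∀ n : Fin c → ℝ, Cov n₀ M n → ∃ i u, δ < |n ⬝ᵥ D (v i) u|) ≤ c0 / 32 := by
    have e2 : Fin (J + 1) × Fin (2 + 1) ≃ Fin (3 * J + 2 + 1) :=
      finProdFinEquiv.trans (finCongr (by ring))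
    rw [tup_nest hq H.KK e2 (fun v => ∀ n : Fin c → ℝ, Cov n₀ M n → ∃ i u, δ < |n ⬝ᵥ D (v i) u|)]
    refine (Pb_mono (tup_nonneg hq.nonneg _ _) fun v hv hv' => ?_).trans hbad
    have hw : ∀ j, (v j).1 = (v 0).1 := fun j =>
      (Prod.ext_iff.1 (((tup_pos_iff hq.nonneg H.KK _ v).1 hv).2 j)).1
    by_contra hcon
    by_cases hN : NF (v 0).1
    · have hg : H.Gd n₀ X B C' (c0 / 4) ka ε0 (fun j => H.th (v j).2) :=
        not_not.1 fun h => hcon ⟨hN, h⟩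
      obtain ⟨ν, hν, hν2⟩ := gd_cov H hka hC11 (fun D' => hComb D' X hX1) hg
      obtain ⟨i, u, hi⟩ := hv' ν (by rw [hM]; exact hν)
      have h3 := (hD (fun j => v (e2 (i, j))) u).1 (by rw [hw]; exact hN)
      rw [h3] at hi
      have h4 := hν2 (fun j => e2 (i, j)) u
      rw [← hδ] at h4
      exact absurd h4 (not_le.2 hi)
    · obtain ⟨i, u, hi⟩ := hv' (Pi.single n₀ 1) (Pool.QUAD70.Cov.one n₀ hM0)
      have h3 := (hD (fun j => v (e2 (i, j))) u).2 (by rw [hw]; exact hN)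
      rw [h3, dotProduct_zero, abs_zero] at hi
      exact absurd hi (not_lt.2 hδ0.le)
  obtain ⟨f, hf, hP⟩ := out_fam D (tup_isLaw hq H.KK 2) (fun u => H.KK (u 0)) hδ0 hM0 J h1
  obtain ⟨e, he⟩ := exists_equiv J
  rw [tup_nest hq H.KK e (fun v => ∃ u, c * δ < |f (fun i => D (v i.succ)) ⬝ᵥ D (v 0) u|)] at hP
  refine ⟨outF H X J e f, fun t => ⟨(hf _).1, fun i => ?_⟩, ?_⟩
  · by_cases hi : i = n₀
    · rw [hi]
      have : (outF H X J e f t).1 n₀ = 1 := (hf _).1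
      rw [this, abs_one, ← hM]
      exact hM1
    · rw [← hM]
      exact (hf _).2 i hi
  · rw [← pb_marg (wl_marg H hr1 (3 * J + 4 + 1)) (fun v => ∀ u,
      |∑ i, (outF H X J e f fun j => H.th (v j.succ)).1 i * H.E (H.th (v 0)) u i -
        (outF H X J e f fun j => H.th (v j.succ)).2.1 u -
        (outF H X J e f fun j => H.th (v j.succ)).2.2 u * H.tau (H.th (v 0))| ≤
        (2 : ℝ) ^ (-(c0 / 16 * X)))]
    have b1 : c0 / 2 - c0 / 32 ≤ Pb (tup (H.wl r) H.KK (3 * J + 4 + 1)) (fun v => NF (v 0).1) := by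
      rw [pb_marg (tup_marg hq.nonneg H.KK (3 * J + 4 + 1) 0) (fun w => NF w.1)]
      exact hNF
    have b2 : Pb (tup (H.wl r) H.KK (3 * J + 4 + 1)) (fun v =>
        |((H.tau (H.th (v (e (0, 0))).2) - H.tau (H.th (v (e (0, 1))).2) : ℤ) : ℝ)| ≤
          s * 2 ^ X) ≤ c0 / 16 := by
      rw [pb_marg (wl_marg H hr1 (3 * J + 4 + 1)) (fun v =>
        |((H.tau (H.th (v (e (0, 0)))) - H.tau (H.th (v (e (0, 1)))) : ℤ) : ℝ)| ≤ s * 2 ^ X)]
      have hinj : Function.Injective (![e (0, 0), e (0, 1)] : Fin (1 + 1) → Fin (3 * J + 5 + 1)) := by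
        intro a b hab
        have hne : e (0, 0) ≠ e (0, 1) := fun h =>
          absurd (Prod.ext_iff.1 (e.injective h)).2 (show ¬ ((0 : Fin 3) = 1) by decide)
        fin_cases a <;> fin_cases b
        · rfl
        · exact absurd hab hne
        · exact absurd hab.symm hne
        · rfl
      refine le_trans (le_of_eq ?_) hTM
      exact pb_marg (tup_sub hOk.law.nonneg H.line _ hinj) (fun w =>
        |((H.tau (H.th (w 0)) - H.tau (H.th (w 1)) : ℤ) : ℝ)| ≤ s * 2 ^ X)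
    have b3 := Pb_le3 (q := tup (H.wl r) H.KK (3 * J + 4 + 1)) (tup_nonneg hq.nonneg _ _)
      (A := fun v => NF (v 0).1)
      (B₁ := fun v => ∃ u, c * δ < |f (fun i => D (fun j => v (e (i.succ, j)))) ⬝ᵥ
        D (fun j => v (e (0, j))) u|)
      (B₂ := fun v => |((H.tau (H.th (v (e (0, 0))).2) -
        H.tau (H.th (v (e (0, 1))).2) : ℤ) : ℝ)| ≤ s * 2 ^ X)
      (G := fun v => ∀ u,
      |∑ i, (outF H X J e f fun j => H.th (v j.succ).2).1 i * H.E (H.th (v 0).2) u i -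
        (outF H X J e f fun j => H.th (v j.succ).2).2.1 u -
        (outF H X J e f fun j => H.th (v j.succ).2).2.2 u * H.tau (H.th (v 0).2)| ≤
        (2 : ℝ) ^ (-(c0 / 16 * X))) (by
      intro v hv hN
      by_contra hcon
      push Not at hcon
      obtain ⟨c1, c2, u, c3⟩ := hcon
      have hw : ∀ j, (v j).1 = (v 0).1 := fun j =>
        (Prod.ext_iff.1 (((tup_pos_iff hq.nonneg H.KK _ v).1 hv).2 j)).1
      have d1 : ∀ i, D (fun j => v (e (i, j))) =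
          fun u => dt H X (fun j => H.th (v (e (i, j))).2) u := by
        intro i
        funext u
        exact (hD _ u).1 (by rw [hw]; exact hN)
      have d2 := c1 u
      rw [d1, show (fun i : Fin (J + 1) => D (fun j => v (e (i.succ, j)))) =
        fun i => dt H X (fun j => H.th (v (e (i.succ, j))).2) from funext fun i => d1 i.succ] at d2
      have d3 := out_good H X J e he f (fun j => H.th (v j).2) hs c2 u d2
      refine absurd (d3.trans ?_) (not_le.2 c3)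
      have d4 : (2 : ℝ) ^ (-(c0 / 8 * X)) = (2 : ℝ) ^ (-(c0 / 16 * X)) *
          (2 : ℝ) ^ (-(c0 / 16 * X)) := by
        rw [← Real.rpow_add (by norm_num)]
        congr 1
        ring
      have d5 : c * δ / s = (3 * c / s * (2 : ℝ) ^ (-(c0 / 16 * X))) *
          (2 : ℝ) ^ (-(c0 / 16 * X)) := by
        rw [hδ, d4]
        ring
      rw [d5]
      have d6 : (0 : ℝ) ≤ (2 : ℝ) ^ (-(c0 / 16 * X)) := by positivity
      calc (3 * c / s * (2 : ℝ) ^ (-(c0 / 16 * X))) * (2 : ℝ) ^ (-(c0 / 16 * X)) ≤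
            1 * (2 : ℝ) ^ (-(c0 / 16 * X)) := mul_le_mul_of_nonneg_right hX3' d6
        _ = _ := one_mul _)
    have b4 : Pb (tup (H.wl r) H.KK (3 * J + 4 + 1)) (fun v => ∃ u, c * δ <
        |f (fun i => D (fun j => v (e (i.succ, j)))) ⬝ᵥ D (fun j => v (e (0, j))) u|) ≤
        c / (J + 2) + c0 / 32 := hP
    linarith

end Pool.QT64
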