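import Pool.Agent.H64.QUAD.Top
import Pool.Agent.H32.QUAD.Base

/-!
# The block entropies at the base of the walk
-/

set_option autoImplicit false

namespace Pool.QT64

open Finset Real
open Pool.Agent.H49.Ent Pool.Agent.H32.Dense Pool.STK Pool.KS6 Pool.RC21
open Pool.QC (nfb)

variable {Ω S T U V : Type} [Fintype Ω] {p : Ω → ℝ}

/-- Data processing. -/
theorem info_le (hp : ∀ ω, 0 ≤ p ω) {X : Ω → S} {Y : Ω → T} {Z : Ω → U} {Z' : Ω → V}
    (hXY : ∀ ω ω', X ω = X ω' → Y ω = Y ω') (hZ : Det p Z' Z) :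
    CH p Y Z - CH p Y Z' ≤ CH p X Z - CH p X Z' := by
  have key : ∀ {K : Type} (W : Ω → K), CH p X W = CH p Y W + CH p X (fun ω => (Y ω, W ω)) := by
    intro K W
    rw [← CH_chain hp]
    refine CH_congr hp ?_ ?_ (fun _ _ _ _ h => h) (fun _ _ _ _ h => h)
    · intro ω ω' _ _ h
      have h1 := (Prod.ext_iff.1 h).1
      exact Prod.ext h1 (hXY _ _ h1)
    · intro ω ω' _ _ h
      exact (Prod.ext_iff.1 (Prod.ext_iff.1 h).1).1
  have h1 := key Z
  have h2 := key Z'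
  have h3 : CH p X (fun ω => (Y ω, Z' ω)) ≤ CH p X (fun ω => (Y ω, Z ω)) :=
    CH_mono_cond hp fun ω ω' a b h =>
      Prod.ext (Prod.ext_iff.1 h).1 (hZ ω ω' a b (Prod.ext_iff.1 h).2)
  linarith

/-- Carries. -/
theorem carry {x x' g m : ℤ} (hm : 0 < m) (h : x / m = x' / m) :
    |(x + g) / m - (x' + g) / m| ≤ 1 := by
  have key : ∀ {x x' : ℤ}, x / m = x' / m → (x + g) / m ≤ (x' + g) / m + 1 := by
    intro x x' h
    have h1 := Int.mul_ediv_add_emod x m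
    have h2 := Int.mul_ediv_add_emod x' m
    have h3 := Int.mul_ediv_add_emod (x + g) m
    have h4 := Int.mul_ediv_add_emod (x' + g) m
    have r1 := Int.emod_nonneg x hm.ne'
    have r1' := Int.emod_lt_of_pos x hm
    have r2 := Int.emod_nonneg x' hm.ne'
    have r3 := Int.emod_nonneg (x + g) hm.ne'
    have r4' := Int.emod_lt_of_pos (x' + g) hm
    rw [h] at h1
    have h5 : 0 < m * ((x' + g) / m + 2 - (x + g) / m) := by
      have e : m * ((x' + g) / m + 2 - (x + g) / m) =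
          m * ((x' + g) / m) + 2 * m - m * ((x + g) / m) := by ring
      rw [e]
      linarith
    have h6 := (mul_pos_iff_of_pos_left hm).1 h5
    linarith
  have h1 := key h
  have h2 := key h.symm
  rw [abs_le]
  constructor <;> linarith

theorem carryR {x x' g : ℤ} {s : ℕ} (h : x / 2 ^ s = x' / 2 ^ s) :
    |(((x + g) / 2 ^ s - (x' + g) / 2 ^ s : ℤ) : ℝ)| ≤ 1 := by
  have := carry (g := g) (show (0 : ℤ) < 2 ^ s by positivity) h
  exact_mod_cast this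

variable {c : ℕ}

/-- One block, translated. -/
theorem block_tr (hp : IsLaw p) (N nu G : Ω → Fin c → ℤ) (hN : ∀ ω, N ω = nu ω + G ω)
    (Z : Ω → U) (hG : ∀ ω ω', Z ω = Z ω' → G ω = G ω') (n : Fin c) (s s' : ℕ) :
    CH p (fun ω => N ω n / 2 ^ s) (fun ω => (N ω n / 2 ^ s',
      ((fun i : {i : Fin c // i ≠ n} => N ω i / 2 ^ s), Z ω))) ≤
    CH p (fun ω => nu ω n / 2 ^ s) (fun ω => (nu ω n / 2 ^ s',
      ((fun i : {i : Fin c // i ≠ n} => nu ω i / 2 ^ s), Z ω))) + (c + 1) * Real.log 3 := by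
  obtain ⟨W, hW⟩ : ∃ W : Ω → ℤ × (({i : Fin c // i ≠ n} → ℤ) × U), W = fun ω =>
    (N ω n / 2 ^ s', ((fun i : {i : Fin c // i ≠ n} => N ω i / 2 ^ s), Z ω)) := ⟨_, rfl⟩
  rw [← hW]
  have hWG : ∀ ω ω', W ω = W ω' → G ω = G ω' := by
    intro ω ω' h
    rw [hW] at h
    exact hG _ _ (Prod.ext_iff.1 (Prod.ext_iff.1 h).2).2
  have h0 := hp.nonneg
  have a1 := CH_le_add h0 (fun ω => N ω n / 2 ^ s) (fun ω => nu ω n / 2 ^ s) W
  have a2 := CH_le_int h0 hp.sum_one (fun ω => N ω n / 2 ^ s) (fun ω => (nu ω n / 2 ^ s, W ω))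
    (fun _ => 1) (by
      intro ω ω' _ _ h
      have h1 := (Prod.ext_iff.1 h).1
      have h2 := hWG _ _ (Prod.ext_iff.1 h).2
      rw [hN, hN, Pi.add_apply, Pi.add_apply, h2]
      exact carryR h1)
  obtain ⟨Bv, hBv⟩ : ∃ Bv : Ω → Fin c → ℤ, Bv = fun ω i =>
    if i = n then nu ω i / 2 ^ s' else nu ω i / 2 ^ s := ⟨_, rfl⟩
  have a3 := CH_le_add h0 (fun ω => nu ω n / 2 ^ s) Bv W
  have a4 := CH_le_vec h0 hp.sum_one Bv W (fun _ => 1) (by
      intro ω ω' _ _ h i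
      have h2 := hWG _ _ h
      rw [hW] at h
      simp only [Prod.mk.injEq] at h
      obtain ⟨h3, h4, -⟩ := h
      have e : ∀ ω, nu ω i = N ω i + (-(G ω i)) := by
        intro ω
        rw [hN, Pi.add_apply]
        ring
      rw [hBv]
      simp only
      by_cases hi : i = n
      · rw [if_pos hi, if_pos hi, e ω, e ω', h2]
        refine carryR ?_
        rw [hi]
        exact h3
      · rw [if_neg hi, if_neg hi, e ω, e ω', h2]
        exact carryR (congrFun h4 ⟨i, hi⟩))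
  have a5 : CH p (fun ω => nu ω n / 2 ^ s) (fun ω => (Bv ω, W ω)) ≤
      CH p (fun ω => nu ω n / 2 ^ s) (fun ω => (nu ω n / 2 ^ s',
      ((fun i : {i : Fin c // i ≠ n} => nu ω i / 2 ^ s), Z ω))) := by
    refine CH_mono_cond h0 fun ω ω' _ _ h => ?_
    have h1 := (Prod.ext_iff.1 h).1
    have h2 := (Prod.ext_iff.1 h).2
    rw [hW] at h2
    rw [hBv] at h1
    simp only [Prod.mk.injEq] at h2 ⊢
    refine ⟨?_, ?_, h2.2.2⟩
    · have := congrFun h1 n
      simpa using this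
    · funext i
      have := congrFun h1 i.1
      simp only [if_neg i.2] at this
      exact this
  rw [Ex_const hp.sum_one] at a2 a4
  have e3 : (2 : ℝ) * 1 + 1 = 3 := by norm_num
  rw [e3] at a2 a4
  linarith

/-- One block: the label is forgotten. -/
theorem block_lab (hp : IsLaw p) (N : Ω → Fin c → ℤ) (Z : Ω → U) (Z' : Ω → V)
    (hZ : Det p Z' Z) {d1 : ℝ} (h1 : CH p N Z - CH p N Z' ≤ d1) (n : Fin c) (s s' : ℕ) :
    CH p (fun ω => N ω n / 2 ^ s) (fun ω => (N ω n / 2 ^ s',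
      ((fun i : {i : Fin c // i ≠ n} => N ω i / 2 ^ s), Z ω))) ≤
    CH p (fun ω => N ω n / 2 ^ s) (fun ω => (N ω n / 2 ^ s',
      ((fun i : {i : Fin c // i ≠ n} => N ω i / 2 ^ s), Z' ω))) + d1 := by
  have h0 := hp.nonneg
  have key : ∀ {K : Type} (Y : Ω → K), CH p (fun ω => (N ω n / 2 ^ s, (N ω n / 2 ^ s',
      fun i : {i : Fin c // i ≠ n} => N ω i / 2 ^ s))) Y =
      CH p (fun ω => (N ω n / 2 ^ s', fun i : {i : Fin c // i ≠ n} => N ω i / 2 ^ s)) Y +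
      CH p (fun ω => N ω n / 2 ^ s) (fun ω => (N ω n / 2 ^ s',
        ((fun i : {i : Fin c // i ≠ n} => N ω i / 2 ^ s), Y ω))) := by
    intro K Y
    rw [CH_chain h0]
    congr 1
    refine CH_congr h0 (fun _ _ _ _ h => (Prod.ext_iff.1 h).1)
      (fun _ _ _ _ h => (Prod.ext_iff.1 h).1) ?_ ?_ <;>
    · intro w w' _ _ h
      simp only [Prod.mk.injEq] at h ⊢
      tauto
  have k1 := key Z
  have k2 := key Z'
  have k3 := info_le (p := p) h0 (X := N) (Y := fun ω => (N ω n / 2 ^ s, (N ω n / 2 ^ s',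
      fun i : {i : Fin c // i ≠ n} => N ω i / 2 ^ s))) (Z := Z) (Z' := Z') (by
    intro ω ω' h
    simp only [h]) hZ
  have k4 : CH p (fun ω => (N ω n / 2 ^ s', fun i : {i : Fin c // i ≠ n} => N ω i / 2 ^ s)) Z' ≤
      CH p (fun ω => (N ω n / 2 ^ s', fun i : {i : Fin c // i ≠ n} => N ω i / 2 ^ s)) Z :=
    CH_mono_cond h0 hZ
  linarith

/-- **The block entropies at the base of the walk.** -/
theorem nfb_base {Λ Θ β A : Type} (hp : IsLaw p) (L : Ω → Λ) (Tm : Ω → Θ) (b : Ω → β)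
    (V : Ω → A) (N nu G : Ω → Fin c → ℤ) (hN : ∀ ω, N ω = nu ω + G ω)
    (hG : ∀ ω ω', (V ω, (Tm ω, b ω)) = (V ω', (Tm ω', b ω')) → G ω = G ω') {d1 : ℝ}
    (H1 : CH p N (fun ω => (Tm ω, b ω)) - CH p N (fun ω => (V ω, (Tm ω, b ω))) ≤ d1)
    (n : Fin c) (X B : ℕ) :
    nfb (Pool.QB32.p2 p L) (Pool.QB32.n2 N) (Pool.QB32.b2 Tm b) n X B ≤
      nfb p nu (fun ω => (V ω, (Tm ω, b ω))) n X B + B * (d1 + (c + 1) * Real.log 3) := by
  unfold nfb
  have e1 : (B : ℝ) * (d1 + (c + 1) * Real.log 3) =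
      ∑ _j ∈ Finset.range B, (d1 + (c + 1) * Real.log 3) := by
    rw [Finset.sum_const, Finset.card_range, nsmul_eq_mul]
  rw [e1, ← Finset.sum_add_distrib]
  refine Finset.sum_le_sum fun j _ => ?_
  obtain ⟨s, hs⟩ : ∃ s : ℕ, s = X - (j + 1) * X / B := ⟨_, rfl⟩
  obtain ⟨s', hs'⟩ : ∃ s' : ℕ, s' = X - j * X / B := ⟨_, rfl⟩
  rw [← hs, ← hs']
  have a1 : CH (Pool.QB32.p2 p L) (fun w => Pool.QB32.n2 N w n / 2 ^ s)
      (fun w => (Pool.QB32.n2 N w n / 2 ^ s', ((fun i : {i : Fin c // i ≠ n} =>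
        Pool.QB32.n2 N w i / 2 ^ s), Pool.QB32.b2 Tm b w))) =
      CH p (fun ω => N ω n / 2 ^ s) (fun ω => (N ω n / 2 ^ s',
      ((fun i : {i : Fin c // i ≠ n} => N ω i / 2 ^ s), (b ω, Tm ω)))) :=
    (Pool.QB32.p2_fst hp L).CH (fun ω => N ω n / 2 ^ s) (fun ω => (N ω n / 2 ^ s',
      ((fun i : {i : Fin c // i ≠ n} => N ω i / 2 ^ s), (b ω, Tm ω))))
  have a2 : CH p (fun ω => N ω n / 2 ^ s) (fun ω => (N ω n / 2 ^ s',
      ((fun i : {i : Fin c // i ≠ n} => N ω i / 2 ^ s), (b ω, Tm ω)))) =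
      CH p (fun ω => N ω n / 2 ^ s) (fun ω => (N ω n / 2 ^ s',
      ((fun i : {i : Fin c // i ≠ n} => N ω i / 2 ^ s), (Tm ω, b ω)))) := by
    refine CH_congr hp.nonneg (fun _ _ _ _ h => (Prod.ext_iff.1 h).1)
      (fun _ _ _ _ h => (Prod.ext_iff.1 h).1) ?_ ?_ <;>
    · intro w w' _ _ h
      simp only [Prod.mk.injEq] at h ⊢
      tauto
  have a3 := block_lab hp N (fun ω => (Tm ω, b ω)) (fun ω => (V ω, (Tm ω, b ω)))
    (fun _ _ _ _ h => (Prod.ext_iff.1 h).2) H1 n s s'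
  have a4 := block_tr hp N nu G hN (fun ω => (V ω, (Tm ω, b ω))) hG n s s'
  rw [a1, a2]
  linarith

end Pool.QT64
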