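import Pool.Agent.H89.OCK.Stage
import Pool.Agent.H5.FAD.Sum

/-!
# Row 366, part B (COMB): data, ground set of candidates, literal statements of the pieces

`TT` are abstract times with a real time `τ` (integer digits) and a slope `E`, `VV` are labels of
lines with `y` (integers) and a velocity `β`. `φ t v` is an increment, defined up to a function of
`t` and a function of `v`. `N` absorbs the increments of adjacent pairs. There are no contexts and no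
typical objects here: the graph `adj` has all degrees at least `exp (-κ)`.
Entropies are in nats, `X` is the number of binary digits.
-/

set_option autoImplicit false

namespace Pool.QUAD64

open Finset Real
open Pool.Agent.H49.Ent Pool.Agent.H32.Dense Pool.STK Pool.KS6 Pool.OCK Pool.FAD

/-- The mass of a set. -/
noncomputable def ms {R : Type} [Fintype R] (μ : R → ℝ) (P : R → Prop) : ℝ :=
  Ex μ (fun r => ind (P r))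

/-- The data. -/
structure Cb (k c : ℕ) (TT VV : Type) where
  μ : TT → ℝ
  ϖ : VV → ℝ
  τ : TT → ℤ
  y : VV → Fin k → ℤ
  E : TT → Fin k → Fin c → ℝ
  β : VV → Fin c → ℝ
  adj : TT → VV → Prop
  φ : TT → VV → Fin c → ℤ
  a : TT → Fin c → ℝ
  b : VV → Fin c → ℝ

section

variable {k c : ℕ} {TT VV : Type} [Fintype TT] [Fintype VV]

/-- The hypotheses on the data. The degrees of the times of mass zero are not restricted. -/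
structure Cb.Ok (D : Cb k c TT VV) (X : ℕ) (C κ : ℝ) : Prop where
  lμ : IsLaw D.μ
  lϖ : IsLaw D.ϖ
  τ0 : ∀ t, 0 ≤ D.τ t ∧ D.τ t < 2 ^ X
  y0 : ∀ v u, 0 ≤ D.y v u ∧ D.y v u < 2 ^ X
  E0 : ∀ t u i, |D.E t u i| ≤ C
  β0 : ∀ v i, |D.β v i| ≤ C
  φ0 : ∀ t v, D.adj t v → ∀ i,
    |(D.φ t v i : ℝ) - (D.τ t * D.β v i - ∑ u, D.E t u i * D.y v u + D.a t i + D.b v i)| ≤ C
  dτ : ∀ s, ms D.μ (fun t => D.τ t = s) ≤ C / 2 ^ X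
  dy : ∀ s, ms D.ϖ (fun v => D.y v = s) ≤ C / 2 ^ (k * X)
  gϖ : ∀ v, Real.exp (-κ) ≤ ms D.μ (fun t => D.adj t v)
  gμ : ∀ t, 0 < D.μ t → Real.exp (-κ) ≤ ms D.ϖ (fun v => D.adj t v)

/-- Four times are legal: they have many common neighbours. -/
def Cb.LT (D : Cb k c TT VV) (θ : ℝ) (t : Fin 4 → TT) : Prop :=
  θ ≤ ms D.ϖ (fun v => ∀ i, D.adj (t i) v)

/-- Four labels are legal. -/
def Cb.LV (D : Cb k c TT VV) (θ : ℝ) (v : Fin 4 → VV) : Prop :=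
  θ ≤ ms D.μ (fun t => ∀ i, D.adj t (v i))

end

/-- A candidate: slope, weight, depth. -/
abbrev Cn' (c : ℕ) : Type := (Fin c → ℝ) × ℝ × ℕ

section

variable {k c : ℕ} {TT VV : Type} [Fintype TT] [Fintype VV]

/-- The ground set. `X` digits, `p` the constant of the two classes, `θ` the threshold of legality.
The depth `q` is nominal: the first increment is at most `2 ^ (X - q)`. -/
inductive Cb.Cd (D : Cb k c TT VV) (X p : ℕ) (θ : ℝ) : Cn' c → Prop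
  | ta (t : Fin 4 → TT) (u : Fin k) (q : ℕ) (hq : q ≤ X) (hl : D.LT θ t)
      (h1 : D.τ (t 0) - D.τ (t 1) = 2 ^ p * (D.τ (t 2) - D.τ (t 3)))
      (h2 : |D.τ (t 0) - D.τ (t 1)| ≤ 2 ^ (X - q)) :
      D.Cd X p θ (fun i => 2 ^ q * ((D.E (t 0) u i - D.E (t 1) u i) -
        2 ^ p * (D.E (t 2) u i - D.E (t 3) u i)), 1, q)
  | va (v : Fin 4 → VV) (u : Fin k) (q : ℕ) (hq : q ≤ X) (hl : D.LV θ v)
      (h0 : ∀ u', u' ≠ u → D.y (v 0) u' = D.y (v 1) u' ∧ D.y (v 2) u' = D.y (v 3) u')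
      (h1 : D.y (v 0) u - D.y (v 1) u = 2 ^ p * (D.y (v 2) u - D.y (v 3) u))
      (h2 : |D.y (v 0) u - D.y (v 1) u| ≤ 2 ^ (X - q)) :
      D.Cd X p θ (fun i => 2 ^ q * ((D.β (v 0) i - D.β (v 1) i) -
        2 ^ p * (D.β (v 2) i - D.β (v 3) i)), 1, q)
  | tr (t : Fin 4 → TT) (u : Fin k) (q j : ℕ) (hq : q ≤ X) (hj : j ≤ 2 ^ X) (hl : D.LT θ t)
      (h1 : |((D.τ (t 2) - D.τ (t 3) : ℤ) : ℝ) - (j : ℝ) / 2 ^ X * (D.τ (t 0) - D.τ (t 1) : ℤ)| ≤ 4)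
      (h2 : |D.τ (t 0) - D.τ (t 1)| ≤ 2 ^ (X - q)) :
      D.Cd X p θ (fun i => 2 ^ q * ((D.E (t 2) u i - D.E (t 3) u i) -
        (j : ℝ) / 2 ^ X * (D.E (t 0) u i - D.E (t 1) u i)), 1 / 2 ^ p, q)
  | vr (v : Fin 4 → VV) (u : Fin k) (q j : ℕ) (hq : q ≤ X) (hj : j ≤ 2 ^ X) (hl : D.LV θ v)
      (h0 : ∀ u', u' ≠ u → D.y (v 0) u' = D.y (v 1) u' ∧ D.y (v 2) u' = D.y (v 3) u')
      (h1 : |((D.y (v 2) u - D.y (v 3) u : ℤ) : ℝ) -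
        (j : ℝ) / 2 ^ X * (D.y (v 0) u - D.y (v 1) u : ℤ)| ≤ 4)
      (h2 : |D.y (v 0) u - D.y (v 1) u| ≤ 2 ^ (X - q)) :
      D.Cd X p θ (fun i => 2 ^ q * ((D.β (v 2) i - D.β (v 3) i) -
        (j : ℝ) / 2 ^ X * (D.β (v 0) i - D.β (v 1) i)), 1 / 2 ^ p, q)
  | tv (i₀ : Fin c) (q : ℕ) (hq : q ≤ X) :
      D.Cd X p θ (fun i => if i = i₀ then 2 ^ q / 2 ^ X else 0, 1, q)

end

/-! ### The absorber -/

/-- `N` absorbs the elements of `Λ`, whatever their joint law is. -/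
def Absb {ΩN : Type} [Fintype ΩN] {c : ℕ} (pN : ΩN → ℝ) (N : ΩN → Fin c → ℤ)
    (Λ : Set (Fin c → ℤ)) (δ : ℝ) : Prop :=
  ∀ (Γ : Type) [Fintype Γ] (q : Γ → ℝ), IsLaw q → ∀ (m : ℕ) (x : Γ → Fin m → Fin c → ℤ)
    (s : Fin m → ℤ), (∀ γ, 0 < q γ → ∀ j, x γ j ∈ Λ) → (∀ j, s j = 1 ∨ s j = -1) →
    H (fun w : ΩN × Γ => pN w.1 * q w.2) (fun w i => N w.1 i + ∑ j, s j * x w.2 j i) ≤
      H pN N + m * δ

/-! ### R2: samples of labels -/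

/-- The probability of an event for a pair of copies with the same `l` first digits of the position
of the first label. -/
noncomputable def Bad {A : Type} [Fintype A] (q : (Fin 3 → A) → ℝ) (pos : A → ℤ) (X l : ℕ)
    (P : (Fin 3 → A) × (Fin 3 → A) → Prop) : ℝ :=
  Ex (dbl q (fun x => ⌊(2 : ℝ) ^ l * ((pos (x 0) : ℝ) / 2 ^ X)⌋)) (fun z => ind (P z))

/-- Row R2 (B-i). `A` are the labels to be drawn, `R` the roots. The output is a law on triples of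
labels of `W`, all constants of the coupling being fixed: `x'` are the second copies. -/
def CopStmt : Prop :=
  ∃ Cst : ℝ, ∀ (A R ρ : Type) [Fintype A] [Fintype R] [Fintype ρ] (ϖ : A → ℝ) (μ : R → ℝ),
    IsLaw ϖ → IsLaw μ → ∀ (adj : A → R → Prop) (W : A → Prop) (pos : A → ℤ) (rest : A → ρ)
    (wr : ρ → ℝ) (X p : ℕ) (C k₁ w t v : ℝ), IsLaw wr → p ≤ X → 1 ≤ C → 1 ≤ k₁ → 1 ≤ w → 1 ≤ t →
    0 ≤ v → v ≤ 1 →
    (∀ a, 0 ≤ pos a ∧ pos a < 2 ^ X) →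
    (∀ s r, ms ϖ (fun a => pos a = s ∧ rest a = r) ≤ C / 2 ^ X * wr r) →
    (∀ a, 0 < ϖ a → W a → Real.exp (-k₁) ≤ ms μ (adj a)) →
    Real.exp (-w) ≤ ms ϖ W →
    ∃ (x' : Fin 3 → A) (q : (Fin 3 → A) → ℝ), IsLaw q ∧
      (∀ i, W (x' i)) ∧
      (∀ x, 0 < q x → (∀ i, W (x i)) ∧ (∀ i, rest (x i) = rest (x' i)) ∧
        pos (x 0) - pos (x' 0) = 2 ^ p * (pos (x 1) - pos (x' 1)) ∧
        |((pos (x 2) - pos (x' 2) : ℤ) : ℝ) - v * (pos (x 1) - pos (x' 1) : ℤ)| ≤ 2) ∧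
      (∀ l : ℕ, l + p ≤ X → (l : ℝ) * Real.log 2 - Cst * (k₁ + w + C) ≤
        H q (fun x => ⌊(2 : ℝ) ^ l * ((pos (x 0) : ℝ) / 2 ^ X)⌋)) ∧
      (X + 1) * Bad q pos X 0 (fun z => ¬ Real.exp (-t) ≤
          ms μ (fun r => (∀ i, adj (z.1 i) r) ∧ ∀ i, adj (z.2 i) r)) +
      ∑ l ∈ Finset.range (X + 1), Bad q pos X l (fun z => ¬ Real.exp (-t) ≤
          ms μ (fun r => (∀ i, adj (z.1 i) r) ∧ ∀ i, adj (z.2 i) r)) ≤ Cst * (X + 1) * k₁ / t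

/-! ### Signals -/

/-- A signal for the column `a` of the box `V`; the sizes of the columns are `2 ^ (-(K * d b))`.
The signal is a signed sum of at most `M` elements of `Λ`. -/
def Sig {c : ℕ} (K W : ℕ) (V : Matrix (Fin c) (Fin c) ℝ) (d : Fin c → ℕ) (Λ : Set (Fin c → ℤ))
    (M : ℕ) (C' Ls Er : ℝ) (a : Fin c) : Prop :=
  ∃ (Γ : Type) (_ : Fintype Γ) (q : Γ → ℝ) (g : Γ → ℝ) (F : Γ → Fin c → ℝ) (m : ℕ)
    (x : Γ → Fin m → Fin c → ℤ) (s : Fin m → ℤ) (e : ℕ → ℝ), IsLaw q ∧ m ≤ M ∧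
    (∀ γ, 0 < q γ → 0 ≤ g γ ∧ g γ < 1) ∧
    (∀ γ, 0 < q γ → ∀ j, x γ j ∈ Λ) ∧ (∀ j, s j = 1 ∨ s j = -1) ∧
    (∀ γ, 0 < q γ → ∀ i, |((∑ j, s j * x γ j i : ℤ) : ℝ) -
      (g γ * V i a + ∑ b, F γ b * (2 ^ (K * d b) / 2 ^ (K * d a)) * V i b)| ≤ C') ∧
    (K * W * Real.log 2 - Ls ≤ H q (fun γ => ⌊(2 : ℝ) ^ (K * W) * g γ⌋)) ∧
    (∀ w < W, OCK.Cn q (fun γ => ⌊(2 : ℝ) ^ (K * w) * g γ⌋) F (1 / (c * 2 ^ (K * (w + 1)))) (e w)) ∧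
    d a * e 0 + ∑ w ∈ Finset.range W, e w ≤ Er

/-! ### Bases of the ground set -/

/-- The slopes of a tuple of candidates. -/
def slm {c : ℕ} (B : Fin c → Cn' c) : Matrix (Fin c) (Fin c) ℝ := Matrix.of fun i b => (B b).1 i

/-- The box of a tuple of candidates, in integer units: the columns `2 ^ (X - q) w`. -/
noncomputable def col {c : ℕ} (X : ℕ) (B : Fin c → Cn' c) : Matrix (Fin c) (Fin c) ℝ :=
  Matrix.of fun i b => 2 ^ X / 2 ^ (B b).2.2 * (B b).1 i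

/-- `B` is a `κ`-optimal basis of the candidates of depth at most `Q`. -/
def Opt {c : ℕ} (S : Set (Cn' c)) (Q : ℕ) (κ : ℝ) (B : Fin c → Cn' c) : Prop :=
  (∀ b, B b ∈ S ∧ (B b).2.2 ≤ Q) ∧ (slm B).det ≠ 0 ∧
    ∀ α ∈ S, α.2.2 ≤ Q → ∃ x : Fin c → ℝ, (∀ i, α.1 i = ∑ b, x b * (B b).1 i) ∧
      ∀ b, |x b| ≤ κ * ((B b).2.1 / α.2.1)

/-- Row SEL (48). The bases of the depths `m Q`, `1 ≤ m ≤ M`. -/
def SelStmt : Prop :=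
  ∀ (c : ℕ) (X p M Q : ℕ) (S : Set (Cn' c)), S.Finite → M * Q ≤ X → 1 ≤ M → 1 ≤ Q →
    (∀ α ∈ S, 1 / 2 ^ p ≤ α.2.1 ∧ α.2.1 ≤ 1) →
    (∀ (i₀ : Fin c) (q : ℕ), q ≤ X →
      ((fun i => if i = i₀ then 2 ^ q / 2 ^ X else 0, 1, q) : Cn' c) ∈ S) →
    ∃ (B : ℕ → Fin c → Cn' c) (l : ℕ → ℕ),
      (∀ m, 1 ≤ m → m ≤ M → Opt S (m * Q) ((c + 1) ^ m) (B m)) ∧
      (∀ m, 1 ≤ m → m < M → Inc (c * (c + 1) ^ (M + 1) * 2 ^ p)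
        ((1 / 2 ^ (m * Q) : ℝ) • col X (B m)) ((2 ^ (l m) : ℝ) • col X (B (m + 1)))) ∧
      ∑ m ∈ Finset.Ico 1 M, l m ≤ c * Q

/-- Row STG (R4: 43, 38). The signals of an optimal basis. -/
def StgStmt : Prop :=
  ∃ Cst : ℝ, ∀ (k c : ℕ) (TT VV : Type) [Fintype TT] [Fintype VV] (D : Cb k c TT VV) (X p : ℕ)
    (C κ t κo : ℝ) (Λ : Set (Fin c → ℤ)), 1 ≤ C → 1 ≤ κ → 1 ≤ t → 1 ≤ κo → D.Ok X C κ →
    (∀ s v, D.adj s v → D.φ s v ∈ Λ) → ∀ (Q K W : ℕ) (B : Fin c → Cn' c), Q ≤ X → 1 ≤ K → 1 ≤ W →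
    K * W + p ≤ Q → 2 * c * κo * 4 ^ K ≤ 2 ^ p →
    Opt {α | D.Cd X p (Real.exp (-t)) α} Q κo B →
    ∃ d : Fin c → ℕ, (∀ b, K * d b ≤ X + p) ∧
      ∀ a, (∃ i₀, ∀ i, col X B i a = if i = i₀ then 1 else 0) ∨
        Sig K W (col X B) d Λ (2 ^ (p + 5)) (Cst * (k + 1) * C * 2 ^ p) (Cst * (κ + t + (k + 1) * C))
          (Cst * (X + 1) * κ / t) a

/-- Row BOX (R5: 89). One stage. -/
def BoxStmt : Prop :=
  ∀ (c K : ℕ) (κ' a C' : ℝ), ∃ Cst : ℝ, ∀ (ΩN : Type) [Fintype ΩN] (pN : ΩN → ℝ)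
    (N : ΩN → Fin c → ℤ) (Λ : Set (Fin c → ℤ)) (δ : ℝ), IsLaw pN → Absb pN N Λ δ → 0 ≤ δ →
    ∀ (W M P : ℕ) (V S : Matrix (Fin c) (Fin c) ℝ) (d : Fin c → ℕ) (Ls Er : ℝ), 1 ≤ W → 0 ≤ Ls →
    0 ≤ Er → (∀ b, d b ≤ P) → V.det ≠ 0 → S.det ≠ 0 → Inc κ' 1 V → Inc a 1 S →
    Inc a ((1 / 2 ^ (K * W) : ℝ) • V) S →
    (∀ b, (∃ i₀, ∀ i, V i b = if i = i₀ then 1 else 0) ∨ Sig K W V d Λ M C' Ls Er b) →
    DF pN (fun _ => 1) (fun _ => V) (fun ω i => (N ω i : ℝ)) (fun _ => ()) ≤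
      DF pN (fun _ => 1) (fun _ => S) (fun ω i => (N ω i : ℝ)) (fun _ => ()) +
      (c * M * δ + c * Ls + (P + W) * (Real.log 2 + c * Real.log 9) +
        c * c * Er * ((K + 2) * Real.log 2) + Cst)

/-- Row FIN (74). The last step: the fibres of the box. -/
def FinStmt : Prop :=
  ∀ (c : ℕ) (κ' : ℝ), ∃ Cst : ℝ, ∀ (ΩN : Type) [Fintype ΩN] (pN : ΩN → ℝ)
    (N : ΩN → Fin c → ℤ) (V : Matrix (Fin c) (Fin c) ℝ) (i₀ : Fin c) (ℓ : ℝ), IsLaw pN →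
    V.det ≠ 0 → Inc κ' 1 V → 0 < ℓ →
    (∀ n : Fin c → ℝ, n i₀ = 1 → ∃ b, ℓ ≤ |∑ i, n i * V i b|) →
    Real.log ℓ - DF pN (fun _ => 1) (fun _ => V) (fun ω i => (N ω i : ℝ)) (fun _ => ()) - Cst ≤
      CH pN (fun ω => N ω i₀) (fun ω (l : {l : Fin c // l ≠ i₀}) => N ω l)

/-- COMB. `κ`, `δ`, `x₁` are fractions of `X`. -/
def CombStmt : Prop :=
  ∀ (k c : ℕ) (C c₀ : ℝ), 0 < c₀ → ∃ (κ δ x₁ : ℝ) (X₀ : ℕ), 0 < κ ∧ 0 < δ ∧ 0 < x₁ ∧ ∀ X ≥ X₀,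
    ∀ (TT VV : Type) [Fintype TT] [Fintype VV] (D : Cb k c TT VV), D.Ok X C (κ * X) →
    ∀ (ΩN : Type) [Fintype ΩN] (pN : ΩN → ℝ) (N : ΩN → Fin c → ℤ) (Λ : Set (Fin c → ℤ)),
    IsLaw pN → (∀ s v, D.adj s v → D.φ s v ∈ Λ) → Absb pN N Λ (δ * X) → ∀ i₀ : Fin c,
    CH pN (fun ω => N ω i₀) (fun ω (l : {l : Fin c // l ≠ i₀}) => N ω l) ≤
      (1 - c₀) * (X * Real.log 2) →
    ∃ n : Fin c → ℝ, n i₀ = 1 ∧ (∀ i, |n i| ≤ 2 ^ X) ∧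
      ∀ (t : Fin 4 → TT) (u : Fin k) (j : ℕ), j ≤ 2 ^ X → (∀ i v, D.adj (t i) v) →
        |((D.τ (t 2) - D.τ (t 3) : ℤ) : ℝ) - (j : ℝ) / 2 ^ X * (D.τ (t 0) - D.τ (t 1) : ℤ)| ≤ 4 →
        |∑ i, n i * ((D.E (t 2) u i - D.E (t 3) u i) -
          (j : ℝ) / 2 ^ X * (D.E (t 0) u i - D.E (t 1) u i))| ≤ (2 : ℝ) ^ (-(x₁ * X))

end Pool.QUAD64
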