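import Pool.Agent.H21.QW.Comb
import Pool.Agent.H89.CLO.Loc

/-!
# Row 366: FULL and COMB, final statements

`nfb p R b n X B`: the entropy of the coordinate `n` of `R`, block by block (`B` blocks of `X / B`
digits), given the digits of all coordinates before the block, the digits of the other coordinates
in the block, and `b`. `B = 1` is the entropy of the coordinate `n` given the others.
`FullStmt`: `R` is full in every box of candidates of level `0`.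
`CombB`: a covector, with coordinates at most `2 ^ (X / B)`, kills all candidates of level `0`.
-/

set_option autoImplicit false

namespace Pool.QC

open Finset Real
open Pool.Agent.H49.Ent Pool.Agent.H32.Dense Pool.STK

variable {c k : ℕ}

/-- The entropy of the coordinate `n`, by blocks, given the others to the same depth. -/
noncomputable def nfb {Ω W : Type} [Fintype Ω] (p : Ω → ℝ) (R : Ω → Fin c → ℤ) (b : Ω → W)
    (n : Fin c) (X B : ℕ) : ℝ :=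
  ∑ j ∈ Finset.range B, CH p (fun ω => R ω n / 2 ^ (X - (j + 1) * X / B))
    (fun ω => (R ω n / 2 ^ (X - j * X / B),
      ((fun i : {i : Fin c // i ≠ n} => R ω i / 2 ^ (X - (j + 1) * X / B)), b ω)))

/-- **(FULL)** `R` is full in the boxes of the candidates of level `0`. -/
def FullStmt (c k : ℕ) : Prop :=
  ∀ C η : ℝ, 1 ≤ C → 0 < η → ∃ (m : ℕ) (ka ε0 C1 : ℝ) (X0 : ℕ), 0 < ka ∧ 0 < ε0 ∧ 1 ≤ C1 ∧
  ∀ (D : QD c k) (X : ℕ), X0 ≤ X → D.Ok X C ((2 : ℝ) ^ (-(ka * X))) →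
  ∀ (Ω : Type) (_ : Fintype Ω) (p : Ω → ℝ) (R : Ω → Fin c → ℤ), IsLaw p →
    Absb p R D.A (ε0 * X) →
  ∀ δ : Fin c → Fin c → ℝ,
    (∀ b, (∃ w, D.Cand X m (((2 : ℝ) ^ (-(ka * X))) ^ C1) 0 w (δ b)) ∨
      ∃ i, δ b = Pi.single i ((2 : ℝ) ^ X)⁻¹) →
    (mat δ).det ≠ 0 → (∀ i j, |((mat δ)⁻¹) i j| ≤ 2 ^ X) →
    Pool.CLO.Ph p (fun ω i => (R ω i : ℝ) / 2 ^ X) (mat δ) ≤
      Pool.CLO.Ph p (fun ω i => (R ω i : ℝ) / 2 ^ X)
        (((2 : ℝ) ^ X)⁻¹ • (1 : Matrix (Fin c) (Fin c) ℝ)) + η * X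

/-- **(COMB)** A covector which nearly kills all candidates of level `0`. -/
def CombB (c k : ℕ) : Prop :=
  ∀ (n : Fin c) (c0 x1 C : ℝ) (B : ℕ), 0 < x1 → x1 < c0 → 1 ≤ C → 0 < B →
  ∃ (m : ℕ) (ka ε0 C1 : ℝ) (X0 : ℕ), 0 < ka ∧ 0 < ε0 ∧ 1 ≤ C1 ∧
  ∀ (D : QD c k) (X : ℕ), X0 ≤ X → D.Ok X C ((2 : ℝ) ^ (-(ka * X))) →
  ∀ (Ω : Type) (_ : Fintype Ω) (p : Ω → ℝ) (R : Ω → Fin c → ℤ), IsLaw p →
    (∀ ω i, |(R ω i : ℝ)| ≤ C * 2 ^ X) → Absb p R D.A (ε0 * X) →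
    nfb p R (fun _ => ()) n X B ≤ (1 - c0) * X * Real.log 2 →
    ∃ ν : Fin c → ℝ, ν n = 1 ∧ (∀ i, |ν i| ≤ (2 : ℝ) ^ ((X : ℝ) / B)) ∧
      ∀ (w : Bool) (δ : Fin c → ℝ), D.Cand X m (((2 : ℝ) ^ (-(ka * X))) ^ C1) 0 w δ →
        |∑ i, ν i * δ i| ≤ (2 : ℝ) ^ (-(x1 * X))

end Pool.QC
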