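import Pool.Agent.H64.QUAD.Blk
import Pool.Agent.H64.QUAD.Asm

/-!
# QUAD for the consumer: the world is a line with a first time
-/

set_option autoImplicit false

namespace Pool.QT64

open Finset Real
open Pool.Agent.H49.Ent Pool.Agent.H32.Dense Pool.STK Pool.KS6 Pool.SLO Pool.RC21 Pool.QB32
open Pool.BFL (Pb)
open Pool.QC (QD nfb)
open Pool.QUAD70 (pb_marg)

variable {c k : ℕ}

/-- Two times on one line; the first is a part of the context. -/
noncomputable def QH.two (H : QH c k) : QH c k where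
  Ω := H.Ω × H.Ω
  iΩ := inferInstance
  B := H.B × H.Tt
  Vt := H.Vt × (H.B × H.Tt)
  Tt := H.Tt
  p := p2 H.p H.line
  b := b2 H.th H.b
  nu := n2 H.hgt
  v := V2 H.th H.b H.v
  th := T2 H.th
  tau := H.tau
  E := H.E
  y := fun v => H.y v.1
  be := fun v => H.be v.1
  g := fun t v => H.g t v.1 - H.g v.2.2 v.1
  a0 := H.a0
  b0 := fun v i => H.b0 v.1 i - H.g v.2.2 v.1 i

/-- The hypotheses with two times. -/
theorem two_ok (H : QH c k) {n₀ : Fin c} {X B : ℕ} {C c0 d : ℝ}
    (hOk : H.Ok0 n₀ X B C c0 d) (hd : 0 ≤ d)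
    (hB : B * (d + (c + 1) * Real.log 3) ≤ c0 / 2 * X * Real.log 2) :
    H.two.Ok n₀ X B C (c0 / 2) (2 * d) := by
  have hp := hOk.law
  have hl := p2_law hp H.line
  have hDb : Det H.p H.line H.b := fun _ _ _ _ h => (Prod.ext_iff.1 (Prod.ext_iff.1 h).2).2
  have hDv : Det H.p H.line H.v := fun _ _ _ _ h => (Prod.ext_iff.1 (Prod.ext_iff.1 h).2).1
  have hp0 := hp.nonneg
  refine
    { law := hl
      tau_r := hOk.tau_r
      y_r := fun v => hOk.y_r v.1
      E_b := hOk.E_b
      be_b := fun v => hOk.be_b v.1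
      nu_b := fun w => hOk.hgt_b w.1
      g_eq := ?_
      h0 := ?_
      h1 := ?_
      h2 := ?_
      y_f := ?_
      t_f := ?_
      nf := ?_ }
  · intro t v i
    have h := hOk.g_eq t v.1 i
    refine le_trans (le_of_eq ?_) h
    show |((H.g t v.1 i - H.g v.2.2 v.1 i : ℤ) : ℝ) - (H.tau t * H.be v.1 i -
      ∑ u, H.E t u i * H.y v.1 u + H.a0 t i + (H.b0 v.1 i - H.g v.2.2 v.1 i))| = _
    congr 1
    push_cast
    ring
  · have h := base_h3 hp H.line H.th H.b H.v H.hgt hDb hOk.h0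
    have e : CH (p2 H.p H.line) (T2 H.th) (fun w => (V2 H.th H.b H.v w, (n2 H.hgt w, b2 H.th H.b w))) =
        CH H.two.p H.two.th H.two.line := by
      refine CH_congr hl.nonneg (fun _ _ _ _ h => (Prod.ext_iff.1 h).1)
        (fun _ _ _ _ h => (Prod.ext_iff.1 h).1) ?_ ?_
      · intro w w' _ _ h
        simp only [Prod.mk.injEq] at h
        exact Prod.ext h.2.1 (Prod.ext h.1 h.2.2)
      · intro w w' _ _ h
        have h1 := Prod.ext_iff.1 h
        have h2 := Prod.ext_iff.1 h1.2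
        exact Prod.ext h2.1 (Prod.ext h1.1 h2.2)
    have e2 : CH (p2 H.p H.line) (T2 H.th) (b2 H.th H.b) = CH H.two.p H.two.th H.two.b := rfl
    rw [e, e2] at h
    linarith
  · have h := base_h1 hp H.line H.th H.b H.v H.hgt hDb hOk.h0 hOk.h2
    refine h.trans (le_of_eq ?_)
    ring
  · have h := base_h2 hp H.line H.th H.b H.v H.hgt hDb hDv hOk.h0 hOk.h2
      (fun t v => H.g t v.1 - H.g v.2.2 v.1) (C := 0) (by
        intro w hw i
        obtain ⟨-, -, h3⟩ := p2_pos hp H.line hw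
        have e1 : H.nu w.1 = H.nu w.2 := (Prod.ext_iff.1 h3).1
        have e2 : H.v w.1 = H.v w.2 := (Prod.ext_iff.1 (Prod.ext_iff.1 h3).2).1
        have e3 : H.hgt w.2 i - (H.hgt w.1 i +
            (H.g (H.th w.2) (V2 H.th H.b H.v w).1 -
              H.g (V2 H.th H.b H.v w).2.2 (V2 H.th H.b H.v w).1) i) = 0 := by
          unfold QH.hgt V2
          simp only [Pi.add_apply, Pi.sub_apply, e1, e2]
          ring
        rw [e3]
        simp)
    have e0 : (4 : ℝ) * 0 + 1 = 1 := by norm_num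
    rw [e0, Real.log_one, mul_zero, mul_zero, add_zero] at h
    refine le_trans (le_of_eq ?_) (h.trans (le_of_eq (by ring)))
    rfl
  · have h := base_Y hp H.line H.th H.b hDb hOk.h0 (fun ω => H.y (H.v ω)) (fun ω ω' a b e => by
      simp only [hDv ω ω' a b e])
    have h1 := hOk.y_f
    have e2 : CH (p2 H.p H.line) (fun w => H.y (H.v w.1)) (b2 H.th H.b) =
      CH H.two.p (fun ω => H.two.y (H.two.v ω)) H.two.b := rfl
    rw [e2] at h
    linarith
  · have h1 := hOk.t_f
    have h2 := info_le hp0 (X := H.th) (Y := fun ω => H.tau (H.th ω)) (Z := H.b) (Z' := H.line)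
      (fun ω ω' e => by simp only [e]) hDb
    have h3 := hOk.h0
    have h4 : CH (p2 H.p H.line) (fun w => H.tau (H.th w.2)) (fun w => w.1) =
        CH H.p (fun ω => H.tau (H.th ω)) H.line := time_snd hp H.line (fun ω => H.tau (H.th ω))
    have h5 : CH (p2 H.p H.line) (fun w => H.tau (H.th w.2)) (fun w => w.1) ≤
        CH (p2 H.p H.line) (fun w => H.tau (H.th w.2)) (b2 H.th H.b) := by
      refine CH_mono_cond hl.nonneg fun w w' _ _ h => ?_
      have e : w.1 = w'.1 := h
      unfold b2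
      rw [e]
    have e2 : CH (p2 H.p H.line) (fun w => H.tau (H.th w.2)) (b2 H.th H.b) =
      CH H.two.p (fun ω => H.two.tau (H.two.th ω)) H.two.b := rfl
    rw [e2] at h5
    linarith
  · have h := nfb_base hp H.line H.th H.b H.v H.hgt H.nu (fun ω => H.g (H.th ω) (H.v ω))
      (fun ω => rfl) (fun ω ω' e => by
        simp only [Prod.mk.injEq] at e
        rw [e.1, e.2.1]) hOk.h2 n₀ X B
    have h1 := hOk.nf
    have e2 : nfb (p2 H.p H.line) (n2 H.hgt) (b2 H.th H.b) n₀ X B =
      nfb H.two.p H.two.nu H.two.b n₀ X B := rfl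
    rw [e2] at h
    have h3 : (1 - c0) * X * Real.log 2 + c0 / 2 * X * Real.log 2 =
      (1 - c0 / 2) * X * Real.log 2 := by ring
    linarith

/-- Samples with two times, second times. -/
theorem two_gen {Ω Λ Μ : Type} [Fintype Ω] {p : Ω → ℝ} (hp : IsLaw p) (L : Ω → Λ) (M : Ω → Μ)
    (hM : ∀ ω ω', M ω = M ω' → L ω = L ω') (N : ℕ) :
    Marg (tup (p2 p L) (fun w => M w.1) N) (tup p L N) (fun v j => (v j).2) := by
  classical
  intro w
  have hp0 := hp.nonneg
  let φ : (Fin (N + 1) → Ω × Ω) ≃ (Fin (N + 1) → Ω) × (Fin (N + 1) → Ω) :=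
    Equiv.arrowProdEquivProdArrow (Fin (N + 1)) (fun _ => Ω) (fun _ => Ω)
  have a1 : (∑ v : Fin (N + 1) → Ω × Ω,
      if (fun j => (v j).2) = w then tup (p2 p L) (fun w => M w.1) N v else 0) =
      ∑ x : (Fin (N + 1) → Ω) × (Fin (N + 1) → Ω),
        if x.2 = w then tup (p2 p L) (fun w => M w.1) N (fun j => (x.1 j, x.2 j)) else 0 := by
    refine Fintype.sum_equiv φ _ _ fun v => ?_
    rfl
  refine Eq.trans (Finset.sum_congr rfl fun v _ => ?_) (a1.trans ?_)
  · by_cases h : (fun j => (v j).2) = w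
    · rw [if_pos h, if_pos h]
    · rw [if_neg h, if_neg h]
  rw [Fintype.sum_prod_type]
  have a2 : ∀ a : Fin (N + 1) → Ω, (∑ y : Fin (N + 1) → Ω,
      if y = w then tup (p2 p L) (fun w => M w.1) N (fun j => (a j, y j)) else 0) =
      tup (p2 p L) (fun w => M w.1) N (fun j => (a j, w j)) := by
    intro a
    rw [Finset.sum_ite_eq' Finset.univ w
      (fun y => tup (p2 p L) (fun w => M w.1) N (fun j => (a j, y j))), if_pos (Finset.mem_univ w)]
  rw [Finset.sum_congr rfl fun a _ => a2 a]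
  have hlaw : ∀ z, law (p2 p L) (fun w => M w.1) z = law p M z := fun z => (p2_fst hp L).law M z
  -- the law of a tuple with given second components
  have a3 : ∀ a : Fin (N + 1) → Ω, tup (p2 p L) (fun w => M w.1) N (fun j => (a j, w j)) =
      tup p M N a * ∏ j, cond p L (L (a 0)) (w j) := by
    intro a
    rw [tup_eq (p2 p L), tup_eq p M]
    by_cases h : ∀ j, M (a j) = M (a 0)
    · rw [if_pos h, if_pos h, hlaw]
      have b1 : ∀ j, p2 p L (a j, w j) = p (a j) * cond p L (L (a 0)) (w j) := by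
        intro j
        have h1 : L (a j) = L (a 0) := hM _ _ (h j)
        unfold p2 dbl glue Pool.Agent.H49.Ent.cond
        simp only
        by_cases h2 : L (w j) = L (a 0)
        · rw [if_pos (h1.trans h2.symm), if_pos h2, h1]
          ring
        · rw [if_neg (fun h3 => h2 (h3.symm.trans h1)), if_neg h2, mul_zero]
      rw [Finset.prod_congr rfl fun j _ => b1 j, Finset.prod_mul_distrib]
      ring
    · rw [if_neg h, if_neg h, zero_mul]
  rw [Finset.sum_congr rfl fun a _ => a3 a]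
  have a4 := (tup_marg hp0 M N 0).ex (fun ω => ∏ j, cond p L (L ω) (w j))
  unfold Ex at a4
  rw [a4, tup_mix hp0 L N w, Pool.FEK74.mix hp0 L]
  refine Finset.sum_congr rfl fun z _ => ?_
  by_cases hz : law p L z = 0
  · rw [hz, zero_mul, zero_mul]
  · congr 1
    have b1 : ∀ ω, cond p L z ω * ∏ j, cond p L (L ω) (w j) =
        cond p L z ω * ∏ j, cond p L z (w j) := by
      intro ω
      by_cases h : L ω = z
      · rw [h]
      · have : cond p L z ω = 0 := if_neg h
        rw [this, zero_mul, zero_mul]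
    rw [Finset.sum_congr rfl fun ω _ => b1 ω, ← Finset.sum_mul, sum_cond p L hz, one_mul]

/-- Samples with two times. -/
theorem two_tup (H : QH c k) (hp : IsLaw H.p) (N : ℕ) :
    Marg (tup H.two.p H.two.line N) (tup H.p H.line N) (fun v j => (v j).2) := by
  refine two_gen hp H.line
    (fun ω => (H.hgt ω, ((H.v ω, (H.b ω, H.th ω)), (H.b ω, H.th ω)))) ?_ N
  intro ω ω' h
  simp only [Prod.mk.injEq] at h
  obtain ⟨h1, ⟨h2, h3, h4⟩, -⟩ := h
  refine Prod.ext ?_ (Prod.ext h2 h3)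
  unfold QH.hgt at h1
  rw [h2, h4] at h1
  exact add_right_cancel h1

theorem Ok_mono {H : QH c k} {n₀ : Fin c} {X B : ℕ} {C c0 d d' : ℝ} (h : H.Ok n₀ X B C c0 d)
    (hd : d ≤ d') : H.Ok n₀ X B C c0 d' :=
  { law := h.law
    tau_r := h.tau_r
    y_r := h.y_r
    E_b := h.E_b
    be_b := h.be_b
    nu_b := h.nu_b
    g_eq := h.g_eq
    h0 := h.h0.trans hd
    h1 := h.h1.trans hd
    h2 := h.h2.trans hd
    y_f := by
      have := h.y_f
      linarith
    t_f := by
      have := h.t_f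
      linarith
    nf := h.nf }

/-- **QUAD for the consumer.** -/
theorem quad_of_R (h : QuadRStmt c k) : Quad0Stmt c k := by
  intro n₀ c0 hc0
  obtain ⟨x0, J, hx0, h⟩ := h n₀ (c0 / 2) (by positivity)
  refine ⟨x0, J, hx0, fun C s B hC hs hB => ?_⟩
  obtain ⟨io, X0, hio, h⟩ := h C s B hC hs hB
  have hl2 : 0 < Real.log 2 := Real.log_pos (by norm_num)
  have hl3 : 0 < Real.log 3 := Real.log_pos (by norm_num)
  have hBR : (0 : ℝ) < B := by exact_mod_cast hB
  obtain ⟨X1, hX1⟩ := exists_nat_ge (B * ((c + 1) * Real.log 3) / (c0 / 4 * Real.log 2))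
  refine ⟨min (io / 2) (c0 * Real.log 2 / (4 * B)), max X0 X1, by positivity,
    fun H X hX hOk hTM => ?_⟩
  have hXR : (0 : ℝ) ≤ X := Nat.cast_nonneg X
  have hX1' : (X1 : ℝ) ≤ X := by exact_mod_cast (le_max_right _ _).trans hX
  obtain ⟨d, hd⟩ : ∃ d : ℝ, d = min (io / 2) (c0 * Real.log 2 / (4 * B)) * X := ⟨_, rfl⟩
  rw [← hd] at hOk
  have hd0 : 0 ≤ d := by
    rw [hd]
    positivity
  have hd1 : d ≤ io / 2 * X := by
    rw [hd]
    exact mul_le_mul_of_nonneg_right (min_le_left _ _) hXR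
  have hd2 : B * d ≤ c0 / 4 * X * Real.log 2 := by
    have h1 : d ≤ c0 * Real.log 2 / (4 * B) * X := by
      rw [hd]
      exact mul_le_mul_of_nonneg_right (min_le_right _ _) hXR
    calc B * d ≤ B * (c0 * Real.log 2 / (4 * B) * X) := mul_le_mul_of_nonneg_left h1 hBR.le
      _ = c0 / 4 * X * Real.log 2 := by
        field_simp
  have hd3 : B * ((c + 1) * Real.log 3) ≤ c0 / 4 * X * Real.log 2 := by
    have h1 := hX1.trans hX1'
    rw [div_le_iff₀ (by positivity)] at h1
    linarith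
  have hk := two_ok H hOk hd0 (by linarith)
  have hk' : H.two.Ok n₀ X B C (c0 / 2) (io * X) := Ok_mono hk (by linarith)
  have hT : H.two.TM X s (c0 / 2 / 16) := by
    unfold QH.TM at hTM ⊢
    have h1 := pb_marg (two_tup H hOk.law 1) (fun w =>
      |((H.tau (H.th (w 0)) - H.tau (H.th (w 1)) : ℤ) : ℝ)| ≤ s * 2 ^ X)
    have h2 : c0 / 2 / 16 = c0 / 32 := by ring
    rw [h2]
    exact (le_of_eq h1).trans hTM
  obtain ⟨f, hf, hP⟩ := h H.two X ((le_max_left _ _).trans hX) hk' hT
  refine ⟨f, hf, ?_⟩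
  have h1 := pb_marg (two_tup H hOk.law (J + 1)) (fun v => ∀ u,
      |∑ i, (f fun j => H.th (v j.succ)).1 i * H.E (H.th (v 0)) u i -
        (f fun j => H.th (v j.succ)).2.1 u -
        (f fun j => H.th (v j.succ)).2.2 u * H.tau (H.th (v 0))| ≤ (2 : ℝ) ^ (-(x0 * X)))
  rw [← h1]
  refine le_trans (le_of_eq (by ring)) hP

end Pool.QT64
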