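import Pool.Agent.H64.QUAD.Top

/-!
# The law of a line with a world: marginals
-/

set_option autoImplicit false

namespace Pool.QT64

open Finset Real
open Pool.Agent.H49.Ent Pool.Agent.H32.Dense Pool.STK Pool.KS6 Pool.SLO
open Pool.BFL (Pb)

variable {c k : ℕ}

section

variable (H : QH c k) {Ee : Type} [Fintype Ee] {r : (Fin c → ℤ) × (H.Vt × H.B) → Ee → ℝ}

theorem wl_law (hp : IsLaw H.p) (h0 : ∀ l e, 0 ≤ r l e) (h1 : ∀ l, ∑ e, r l e = 1) :
    IsLaw (H.wl r) := by
  refine ⟨fun w => mul_nonneg (hp.nonneg _) (h0 _ _), ?_⟩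
  rw [Fintype.sum_prod_type_right, ← hp.sum_one]
  refine Finset.sum_congr rfl fun ω _ => ?_
  unfold QH.wl
  simp only
  rw [← Finset.mul_sum, h1, mul_one]

/-- The law of the world and the line. -/
theorem wl_lawKK (e : Ee) (l : (Fin c → ℤ) × (H.Vt × H.B)) :
    law (H.wl r) H.KK (e, l) = law H.p H.line l * r l e := by
  classical
  unfold law
  rw [Fintype.sum_prod_type_right, Finset.sum_mul]
  refine Finset.sum_congr rfl fun ω _ => ?_
  rw [Finset.sum_eq_single e]
  · unfold QH.KK QH.wl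
    simp only [Prod.mk.injEq, true_and]
    split_ifs with h
    · rw [h]
    · rw [zero_mul]
  · intro e' _ he
    rw [if_neg]
    intro h
    exact he (Prod.ext_iff.1 h).1
  · intro h
    exact absurd (Finset.mem_univ e) h

open Classical in
theorem wl_tup_const (N : ℕ) (e0 : Ee) (w : Fin (N + 1) → H.Ω) :
    tup (H.wl r) H.KK N (fun j => (e0, w j)) = tup H.p H.line N w * r (H.line (w 0)) e0 := by
  rw [tup_eq, tup_eq]
  have e1 : (∀ j, H.KK (e0, w j) = H.KK (e0, w 0)) ↔ ∀ j, H.line (w j) = H.line (w 0) := by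
    unfold QH.KK
    simp
  by_cases h : ∀ j, H.line (w j) = H.line (w 0)
  · rw [if_pos (e1.2 h), if_pos h]
    have e2 : law (H.wl r) H.KK (H.KK (e0, w 0)) = law H.p H.line (H.line (w 0)) *
        r (H.line (w 0)) e0 := wl_lawKK H e0 (H.line (w 0))
    rw [e2]
    have e3 : ∏ j, H.wl r (e0, w j) = (∏ j, H.p (w j)) * r (H.line (w 0)) e0 ^ (N + 1) := by
      unfold QH.wl
      simp only
      rw [Finset.prod_mul_distrib]
      congr 1
      rw [Finset.prod_congr rfl fun j _ => by rw [h j], Finset.prod_const, Finset.card_univ,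
        Fintype.card_fin]
    rw [e3, mul_pow]
    by_cases h2 : r (H.line (w 0)) e0 = 0
    · rw [h2]
      simp
    · rw [pow_succ, mul_div_mul_comm]
      congr 1
      field_simp
  · rw [if_neg (fun hh => h (e1.1 hh)), if_neg h, zero_mul]

/-- **The marginal of the lines.** -/
theorem wl_marg (h1 : ∀ l, ∑ e, r l e = 1) (N : ℕ) :
    Marg (tup (H.wl r) H.KK N) (tup H.p H.line N) (fun v j => (v j).2) := by
  classical
  intro w
  let φ : (Fin (N + 1) → Ee × H.Ω) ≃ (Fin (N + 1) → Ee) × (Fin (N + 1) → H.Ω) :=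
    Equiv.arrowProdEquivProdArrow (Fin (N + 1)) (fun _ => Ee) (fun _ => H.Ω)
  have a1 : (∑ v : Fin (N + 1) → Ee × H.Ω,
      if (fun j => (v j).2) = w then tup (H.wl r) H.KK N v else 0) =
      ∑ x : (Fin (N + 1) → Ee) × (Fin (N + 1) → H.Ω),
        if x.2 = w then tup (H.wl r) H.KK N (fun j => (x.1 j, x.2 j)) else 0 := by
    refine Fintype.sum_equiv φ _ _ fun v => ?_
    rfl
  refine Eq.trans (Finset.sum_congr rfl fun v _ => ?_) (a1.trans ?_)
  · by_cases h : (fun j => (v j).2) = w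
    · rw [if_pos h, if_pos h]
    · rw [if_neg h, if_neg h]
  rw [Fintype.sum_prod_type]
  have a2 : ∀ e : Fin (N + 1) → Ee, (∑ y : Fin (N + 1) → H.Ω,
      if y = w then tup (H.wl r) H.KK N (fun j => (e j, y j)) else 0) =
      tup (H.wl r) H.KK N (fun j => (e j, w j)) := by
    intro e
    rw [Finset.sum_ite_eq' Finset.univ w (fun y => tup (H.wl r) H.KK N (fun j => (e j, y j))),
      if_pos (Finset.mem_univ w)]
  rw [Finset.sum_congr rfl fun e _ => a2 e]
  have a3 : ∑ e : Fin (N + 1) → Ee, tup (H.wl r) H.KK N (fun j => (e j, w j)) =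
      ∑ e ∈ Finset.univ.image (fun (e0 : Ee) (_ : Fin (N + 1)) => e0),
        tup (H.wl r) H.KK N (fun j => (e j, w j)) := by
    symm
    refine Finset.sum_subset (Finset.subset_univ _) fun e _ he => ?_
    rw [tup_eq, if_neg]
    intro h
    apply he
    rw [Finset.mem_image]
    refine ⟨e 0, Finset.mem_univ _, ?_⟩
    funext j
    exact (Prod.ext_iff.1 (h j)).1.symm
  rw [a3, Finset.sum_image fun a _ b _ h => congrFun h 0]
  rw [Finset.sum_congr rfl fun e0 _ => wl_tup_const H N e0 w, ← Finset.mul_sum, h1, mul_one]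

end

end Pool.QT64
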